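import Pool.Agent.Run7.h287.WN.Bridge

/-!
Angles: winding angles around a vertex in a linear drawing are `2 π` times the net crossing number,
up to `2 π`; sums of small angles; Hopf's theorem for paths.
-/

set_option linter.unusedSimpArgs false
set_option linter.flexible false
set_option linter.unusedVariables false

namespace Run7.h287.WN

open Real

/-- the argument of a quotient, from the difference of the arguments -/
lemma arg_div_eq {x y : ℂ} (hx : x ≠ 0) (hy : y ≠ 0) (c : ℤ)
    (h1 : -π < Complex.arg x - Complex.arg y + 2 * π * c)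
    (h2 : Complex.arg x - Complex.arg y + 2 * π * c ≤ π) :
    Complex.arg (x / y) = Complex.arg x - Complex.arg y + 2 * π * c := by
  have h3 : ((Complex.arg (x / y) : ℝ) : Real.Angle) =
      ((Complex.arg x - Complex.arg y + 2 * π * c : ℝ) : Real.Angle) := by
    rw [Complex.arg_div_coe_angle hx hy, Real.Angle.coe_add, Real.Angle.coe_sub]
    have : ((2 * π * c : ℝ) : Real.Angle) = 0 := by
      have := Real.Angle.coe_zsmul c (2 * π)
      rw [Real.Angle.coe_two_pi, smul_zero] at this
      rw [← this]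
      congr 1
      simp
      ring
    rw [this, add_zero]
  have h4 := congrArg Real.Angle.toReal h3
  rw [Complex.arg_coe_angle_toReal_eq_arg, Real.Angle.toReal_coe_eq_self_iff.mpr ⟨h1, h2⟩] at h4
  exact h4

/-- the linear drawing with `(1, 0) ↦ 1`, `(0, 1) ↦ τ` -/
noncomputable def E (τ : ℂ) (p : ℤ × ℤ) : ℂ := p.1 + p.2 * τ

lemma E_im (τ : ℂ) (p : ℤ × ℤ) : (E τ p).im = p.2 * τ.im := by
  simp [E]

lemma E_sub (τ : ℂ) (p q : ℤ × ℤ) : E τ (p - q) = E τ p - E τ q := by
  simp [E]; ring

lemma E_row (τ : ℂ) (a : ℤ) : E τ (a, 0) = (a : ℝ) := by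
  simp [E]

lemma E_ne {τ : ℂ} (hτ : 0 < τ.im) {p : ℤ × ℤ} (h : p ≠ 0) : E τ p ≠ 0 := by
  intro h0
  have h1 : (E τ p).im = 0 := by rw [h0]; rfl
  rw [E_im] at h1
  have h2 : (p.2 : ℝ) = 0 := by
    rcases mul_eq_zero.mp h1 with h | h
    · exact h
    · exact absurd h hτ.ne'
  have h3 : p.2 = 0 := by exact_mod_cast h2
  obtain ⟨a, b⟩ := p
  simp only at h3
  subst h3
  rw [E_row] at h0
  have h4 : (a : ℝ) = 0 := by exact_mod_cast h0
  have h5 : a = 0 := by exact_mod_cast h4
  exact h (by rw [h5]; rfl)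

/-- the crossing of the half-line to the left of the origin (just below it) -/
noncomputable def chi (u v : ℤ × ℤ) : ℤ :=
  I (u.2 = 0 ∧ u.1 < 0 ∧ v.2 = -1) - I (v.2 = 0 ∧ v.1 < 0 ∧ u.2 = -1)

lemma arg_up {τ : ℂ} (hτ : 0 < τ.im) {p : ℤ × ℤ} (h : 0 ≤ p.2) :
    0 ≤ Complex.arg (E τ p) ∧ Complex.arg (E τ p) ≤ π := by
  refine ⟨Complex.arg_nonneg_iff.mpr ?_, Complex.arg_le_pi _⟩
  rw [E_im]
  have : (0 : ℝ) ≤ p.2 := by exact_mod_cast h
  positivity

lemma arg_down {τ : ℂ} (hτ : 0 < τ.im) {p : ℤ × ℤ} (h : p.2 < 0) :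
    Complex.arg (E τ p) < 0 ∧ -π < Complex.arg (E τ p) := by
  refine ⟨Complex.arg_neg_iff.mpr ?_, Complex.neg_pi_lt_arg _⟩
  rw [E_im]
  have : (p.2 : ℝ) < 0 := by exact_mod_cast h
  exact mul_neg_of_neg_of_pos this hτ

lemma arg_row_pos {τ : ℂ} {p : ℤ × ℤ} (h : p.2 = 0) (h1 : 0 < p.1) :
    Complex.arg (E τ p) = 0 := by
  obtain ⟨a, b⟩ := p
  simp only at h h1
  subst h
  rw [E_row]
  exact Complex.arg_ofReal_of_nonneg (by exact_mod_cast h1.le)

lemma arg_row_neg {τ : ℂ} {p : ℤ × ℤ} (h : p.2 = 0) (h1 : p.1 < 0) :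
    Complex.arg (E τ p) = π := by
  obtain ⟨a, b⟩ := p
  simp only at h h1
  subst h
  rw [E_row]
  exact Complex.arg_ofReal_of_neg (by exact_mod_cast h1)

lemma arg_eq_zero {τ : ℂ} (hτ : 0 < τ.im) {p : ℤ × ℤ} (h : Complex.arg (E τ p) = 0)
    (hp : p ≠ 0) : p.2 = 0 ∧ 0 < p.1 := by
  have h1 := (Complex.arg_eq_zero_iff.mp h)
  rw [E_im] at h1
  have h2 : p.2 = 0 := by
    rcases mul_eq_zero.mp h1.2 with h | h
    · exact_mod_cast h
    · exact absurd h hτ.ne'
  refine ⟨h2, ?_⟩
  obtain ⟨a, b⟩ := p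
  simp only at h2
  subst h2
  rw [E_row] at h1
  have h3 : (0 : ℝ) ≤ a := by simpa using h1.1
  have h4 : 0 ≤ a := by exact_mod_cast h3
  have h5 : a ≠ 0 := fun h => hp (by rw [h]; rfl)
  show 0 < a
  omega

lemma arg_eq_pi {τ : ℂ} (hτ : 0 < τ.im) {p : ℤ × ℤ} (h : Complex.arg (E τ p) = π) :
    p.2 = 0 ∧ p.1 < 0 := by
  have h1 := (Complex.arg_eq_pi_iff.mp h)
  rw [E_im] at h1
  have h2 : p.2 = 0 := by
    rcases mul_eq_zero.mp h1.2 with h | h
    · exact_mod_cast h
    · exact absurd h hτ.ne'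
  refine ⟨h2, ?_⟩
  obtain ⟨a, b⟩ := p
  simp only at h2
  subst h2
  rw [E_row] at h1
  have h3 : (a : ℝ) < 0 := by simpa using h1.1
  exact_mod_cast h3

/-- the angle of one step, seen from the origin -/
lemma arg_step {τ : ℂ} (hτ : 0 < τ.im) {u v : ℤ × ℤ} (hu : u ≠ 0) (hv : v ≠ 0)
    (h1 : |v.1 - u.1| ≤ 1) (h2 : |v.2 - u.2| ≤ 1) :
    Complex.arg (E τ v / E τ u) =
      Complex.arg (E τ v) - Complex.arg (E τ u) + 2 * π * chi u v := by
  rw [abs_le] at h1 h2
  have hpi := Real.pi_pos
  apply arg_div_eq (E_ne hτ hv) (E_ne hτ hu)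
  · rcases lt_or_ge u.2 0 with hu2 | hu2 <;> rcases lt_or_ge v.2 0 with hv2 | hv2
    · have e : chi u v = 0 := by
        unfold chi; rw [I_neg (by omega), I_neg (by omega)]; rfl
      have a1 := arg_down hτ hu2
      have a2 := arg_down hτ hv2
      rw [e]; push_cast; linarith
    · -- u below, v on row 0
      have a1 := arg_down hτ hu2
      have hv0 : v.2 = 0 := by omega
      rcases lt_trichotomy v.1 0 with hs | hs | hs
      · have e : chi u v = -1 := by
          unfold chi; rw [I_neg (by omega), I_pos (by omega)]; rfl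
        rw [e, arg_row_neg hv0 hs]; push_cast; linarith
      · exact absurd (Prod.ext hs hv0) hv
      · have e : chi u v = 0 := by
          unfold chi; rw [I_neg (by omega), I_neg (by omega)]; rfl
        rw [e, arg_row_pos hv0 hs]; push_cast; linarith
    · have a1 := arg_down hτ hv2
      have hu0 : u.2 = 0 := by omega
      rcases lt_trichotomy u.1 0 with hs | hs | hs
      · have e : chi u v = 1 := by
          unfold chi; rw [I_pos (by omega), I_neg (by omega)]; rfl
        rw [e, arg_row_neg hu0 hs]; push_cast; linarith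
      · exact absurd (Prod.ext hs hu0) hu
      · have e : chi u v = 0 := by
          unfold chi; rw [I_neg (by omega), I_neg (by omega)]; rfl
        rw [e, arg_row_pos hu0 hs]; push_cast; linarith
    · have e : chi u v = 0 := by
        unfold chi; rw [I_neg (by omega), I_neg (by omega)]; rfl
      have a1 := arg_up hτ hu2
      have a2 := arg_up hτ hv2
      rw [e]; push_cast
      rcases eq_or_lt_of_le a1.2 with h | h
      · rcases eq_or_lt_of_le a2.1 with h' | h'
        · exfalso
          have b1 := arg_eq_pi hτ h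
          have b2 := arg_eq_zero hτ h'.symm hv
          omega
        · linarith
      · linarith
  · rcases lt_or_ge u.2 0 with hu2 | hu2 <;> rcases lt_or_ge v.2 0 with hv2 | hv2
    · have e : chi u v = 0 := by
        unfold chi; rw [I_neg (by omega), I_neg (by omega)]; rfl
      have a1 := arg_down hτ hu2
      have a2 := arg_down hτ hv2
      rw [e]; push_cast; linarith
    · have a1 := arg_down hτ hu2
      have hv0 : v.2 = 0 := by omega
      rcases lt_trichotomy v.1 0 with hs | hs | hs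
      · have e : chi u v = -1 := by
          unfold chi; rw [I_neg (by omega), I_pos (by omega)]; rfl
        rw [e, arg_row_neg hv0 hs]; push_cast; linarith
      · exact absurd (Prod.ext hs hv0) hv
      · have e : chi u v = 0 := by
          unfold chi; rw [I_neg (by omega), I_neg (by omega)]; rfl
        rw [e, arg_row_pos hv0 hs]; push_cast; linarith
    · have a1 := arg_down hτ hv2
      have hu0 : u.2 = 0 := by omega
      rcases lt_trichotomy u.1 0 with hs | hs | hs
      · have e : chi u v = 1 := by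
          unfold chi; rw [I_pos (by omega), I_neg (by omega)]; rfl
        rw [e, arg_row_neg hu0 hs]; push_cast; linarith
      · exact absurd (Prod.ext hs hu0) hu
      · have e : chi u v = 0 := by
          unfold chi; rw [I_neg (by omega), I_neg (by omega)]; rfl
        rw [e, arg_row_pos hu0 hs]; push_cast; linarith
    · have e : chi u v = 0 := by
        unfold chi; rw [I_neg (by omega), I_neg (by omega)]; rfl
      have a1 := arg_up hτ hu2
      have a2 := arg_up hτ hv2
      rw [e]; push_cast; linarith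

lemma chi_eq {u : ℤ × ℤ} (d : Fin 6) (z : ℤ × ℤ) :
    chi (u - z) (u + dir d - z) = cr u (u + dir d) z.2 (2 * z.1 - 1) := by
  obtain ⟨a, b⟩ := u
  obtain ⟨x, y⟩ := z
  unfold chi cr
  fin_cases d
  · simp only [dir, Matrix.cons_val_zero, Matrix.cons_val_one, Matrix.cons_val, Prod.mk_add_mk,
      Prod.mk_sub_mk, Fin.isValue, Fin.zero_eta, Fin.mk_one, Fin.reduceFinMk]
    rw [I_neg (by omega), I_neg (by omega), I_neg (by omega), I_neg (by omega)]
  · simp only [dir, Matrix.cons_val_zero, Matrix.cons_val_one, Matrix.cons_val, Prod.mk_add_mk,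
      Prod.mk_sub_mk, Fin.isValue, Fin.zero_eta, Fin.mk_one, Fin.reduceFinMk]
    rw [I_neg (by omega), I_neg (P := b = y ∧ _) (by omega)]
    congr 1
    exact I_congr (by omega)
  · simp only [dir, Matrix.cons_val_zero, Matrix.cons_val_one, Matrix.cons_val, Prod.mk_add_mk,
      Prod.mk_sub_mk, Fin.isValue, Fin.zero_eta, Fin.mk_one, Fin.reduceFinMk]
    rw [I_neg (by omega), I_neg (P := b = y ∧ _) (by omega)]
    congr 1
    exact I_congr (by omega)
  · simp only [dir, Matrix.cons_val_zero, Matrix.cons_val_one, Matrix.cons_val, Prod.mk_add_mk,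
      Prod.mk_sub_mk, Fin.isValue, Fin.zero_eta, Fin.mk_one, Fin.reduceFinMk]
    rw [I_neg (by omega), I_neg (by omega), I_neg (by omega), I_neg (by omega)]
  · simp only [dir, Matrix.cons_val_zero, Matrix.cons_val_one, Matrix.cons_val, Prod.mk_add_mk,
      Prod.mk_sub_mk, Fin.isValue, Fin.zero_eta, Fin.mk_one, Fin.reduceFinMk]
    congr 1
    · exact I_congr (by omega)
    · rw [I_neg (by omega), I_neg (by omega)]
  · simp only [dir, Matrix.cons_val_zero, Matrix.cons_val_one, Matrix.cons_val, Prod.mk_add_mk,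
      Prod.mk_sub_mk, Fin.isValue, Fin.zero_eta, Fin.mk_one, Fin.reduceFinMk]
    congr 1
    · exact I_congr (by omega)
    · rw [I_neg (by omega), I_neg (by omega)]

end Run7.h287.WN
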