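import Pool.Agent.Run7.h287.WN.Jordan

/-!
Net crossing numbers of bridges and of concatenations of bridges.
-/

set_option linter.unusedSimpArgs false
set_option linter.flexible false
set_option linter.unusedVariables false

namespace Run7.h287.WN

/-- self-avoiding between the times `s` and `t`, with steps in the six directions -/
structure Saw (q : ℕ → ℤ × ℤ) (s t : ℕ) : Prop where
  inj : ∀ i, s ≤ i → i ≤ t → ∀ j, s ≤ j → j ≤ t → q i = q j → i = j
  step : ∀ i, s ≤ i → i < t → ∃ d : Fin 6, q (i + 1) = q i + dir d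

lemma Saw.mono {q : ℕ → ℤ × ℤ} {s t s' t' : ℕ} (h : Saw q s t) (hs : s ≤ s') (ht : t' ≤ t) :
    Saw q s' t' :=
  ⟨fun i h1 h2 j h3 h4 => h.inj i (by omega) (by omega) j (by omega) (by omega),
    fun i h1 h2 => h.step i (by omega) (by omega)⟩

/-- the net crossing number of the dual half-line which ends at the position `k` of the strip `β` -/
noncomputable def N (q : ℕ → ℤ × ℤ) (s t : ℕ) (β k : ℤ) : ℤ :=
  ∑ i ∈ Finset.Ico s t, cr (q i) (q (i + 1)) β k

lemma N_self (q : ℕ → ℤ × ℤ) (s : ℕ) (β k : ℤ) : N q s s β k = 0 := by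
  unfold N; simp

lemma N_add (q : ℕ → ℤ × ℤ) {s r t : ℕ} (h1 : s ≤ r) (h2 : r ≤ t) (β k : ℤ) :
    N q s r β k + N q r t β k = N q s t β k :=
  Finset.sum_Ico_consecutive _ h1 h2

lemma cr_rev (u v : ℤ × ℤ) (β k : ℤ) : cr v u β k = - cr u v β k := by
  unfold cr
  rw [I_congr (show (v.2 = β ∧ u.2 = β - 1 ∧ v.1 + u.1 ≤ k) ↔
    (u.2 = β - 1 ∧ v.2 = β ∧ u.1 + v.1 ≤ k) by omega),
    I_congr (show (v.2 = β - 1 ∧ u.2 = β ∧ v.1 + u.1 ≤ k) ↔
    (u.2 = β ∧ v.2 = β - 1 ∧ u.1 + v.1 ≤ k) by omega)]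
  ring

lemma N_up {q : ℕ → ℤ × ℤ} {s t : ℕ} (hst : s ≤ t) (H : Saw q s t)
    (hb : ∀ i, s ≤ i → i ≤ t → (q s).1 ≤ (q i).1 ∧ (q i).1 ≤ (q t).1) (β k : ℤ) :
    |N q s t β k| ≤ 1 := by
  set p : ℕ → ℤ × ℤ := fun i => if i = 0 then q s - dir 0 else q (s + (i - 1)) with hp
  have p0 : p 0 = q s - dir 0 := by simp [hp]
  have ps : ∀ i, p (i + 1) = q (s + i) := fun i => by simp [hp]
  have pos : ∀ i, 1 ≤ i → p i = q (s + (i - 1)) := fun i hi => by
    obtain ⟨j, rfl⟩ : ∃ j, i = j + 1 := ⟨i - 1, by omega⟩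
    rw [ps]; simp
  have p01 : (p 0).1 = (q s).1 - 1 := by rw [p0]; simp [dir]
  have G : Good p (t - s + 1) := by
    refine ⟨?_, ?_, by omega, ?_, ?_, ?_⟩
    · intro i hi j hj hij
      rcases Nat.eq_zero_or_pos i with rfl | hi0 <;> rcases Nat.eq_zero_or_pos j with rfl | hj0
      · rfl
      · exfalso
        have h1 := (hb (s + (j - 1)) (by omega) (by omega)).1
        rw [← pos j hj0, ← hij, p01] at h1
        omega
      · exfalso
        have h1 := (hb (s + (i - 1)) (by omega) (by omega)).1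
        rw [← pos i hi0, hij, p01] at h1
        omega
      · rw [pos i hi0, pos j hj0] at hij
        have := H.inj _ (by omega) (by omega) _ (by omega) (by omega) hij
        omega
    · intro i hi
      rcases Nat.eq_zero_or_pos i with rfl | hi0
      · refine ⟨0, ?_⟩
        rw [ps, p0]
        simp
      · obtain ⟨d, hd⟩ := H.step (s + (i - 1)) (by omega) (by omega)
        refine ⟨d, ?_⟩
        rw [ps, pos i hi0, ← hd]
        congr 1
        omega
    · rw [show (1 : ℕ) = 0 + 1 from rfl, ps, p0]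
      simp
    · intro i hi hi1
      rw [pos i hi1, p01]
      have := (hb (s + (i - 1)) (by omega) (by omega)).1
      omega
    · intro i hi
      rw [ps, show s + (t - s) = t by omega]
      rcases Nat.eq_zero_or_pos i with rfl | hi0
      · rw [p01]
        have := (hb s le_rfl hst).2
        omega
      · rw [pos i hi0]
        exact (hb _ (by omega) (by omega)).2
  have h1 := good_cross G β k
  rw [Finset.sum_range_succ'] at h1
  have h2 : cr (p 0) (p (0 + 1)) β k = 0 := by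
    rw [ps, p0, add_zero]
    unfold cr
    rw [I_neg (by simp [dir]; omega), I_neg (by simp [dir]; omega), sub_zero]
  rw [h2, add_zero] at h1
  have h3 : N q s t β k = ∑ i ∈ Finset.range (t - s), cr (p (i + 1)) (p (i + 1 + 1)) β k := by
    unfold N
    rw [Finset.sum_Ico_eq_sum_range]
    apply Finset.sum_congr rfl
    intro i _
    rw [ps, ps]
    rfl
  rw [h3]
  exact h1

lemma N_down {q : ℕ → ℤ × ℤ} {s t : ℕ} (hst : s ≤ t) (H : Saw q s t)
    (hb : ∀ i, s ≤ i → i ≤ t → (q t).1 ≤ (q i).1 ∧ (q i).1 ≤ (q s).1) (β k : ℤ) :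
    |N q s t β k| ≤ 1 := by
  have hS : Saw (fun i => q (t - i)) 0 (t - s) := by
    refine ⟨?_, ?_⟩
    · intro i _ hi j _ hj hij
      have := H.inj (t - i) (by omega) (by omega) (t - j) (by omega) (by omega) hij
      omega
    · intro i _ hi
      obtain ⟨d, hd⟩ := H.step (t - (i + 1)) (by omega) (by omega)
      refine ⟨d + 3, ?_⟩
      rw [show t - (i + 1) + 1 = t - i by omega] at hd
      show q (t - (i + 1)) = q (t - i) + dir (d + 3)
      rw [dir_opp, hd]
      simp
  have h1 := N_up (Nat.zero_le (t - s)) hS (by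
    intro i _ hi
    rw [Nat.sub_zero, show t - (t - s) = s by omega]
    exact hb (t - i) (by omega) (by omega)) β k
  have h2 : N (fun i => q (t - i)) 0 (t - s) β k = - N q s t β k := by
    unfold N
    rw [← Finset.sum_neg_distrib]
    rcases Nat.eq_zero_or_pos t with rfl | ht
    · have : s = 0 := by omega
      subst this
      simp
    have h3 := Finset.sum_Ico_reflect (fun i => -cr (q i) (q (i + 1)) β k) 0
      (show t - s ≤ t - 1 + 1 by omega)
    rw [show t - 1 + 1 - (t - s) = s by omega, show t - 1 + 1 - 0 = t by omega] at h3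
    rw [← h3]
    apply Finset.sum_congr rfl
    intro i hi
    have hi' := Finset.mem_Ico.mp hi
    simp only
    rw [show t - 1 - i + 1 = t - i by omega, show t - (i + 1) = t - 1 - i by omega]
    exact cr_rev _ _ _ _
  rw [h2, abs_neg] at h1
  exact h1

/-- the piece between the times `s` and `t` is a bridge (upwards or downwards) for the first
coordinate -/
def Br (q : ℕ → ℤ × ℤ) (s t : ℕ) : Prop :=
  s ≤ t ∧ ((∀ i, s ≤ i → i ≤ t → (q s).1 ≤ (q i).1 ∧ (q i).1 ≤ (q t).1) ∨
    (∀ i, s ≤ i → i ≤ t → (q t).1 ≤ (q i).1 ∧ (q i).1 ≤ (q s).1))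

lemma N_br {q : ℕ → ℤ × ℤ} {s t : ℕ} (H : Saw q s t) (hb : Br q s t) (β k : ℤ) :
    |N q s t β k| ≤ 1 := by
  rcases hb with ⟨hst, h | h⟩
  · exact N_up hst H h β k
  · exact N_down hst H h β k

/-- concatenations of `m` bridges -/
def Cut (q : ℕ → ℤ × ℤ) (m s t : ℕ) : Prop :=
  ∃ τ : ℕ → ℕ, τ 0 = s ∧ τ m = t ∧ ∀ i < m, Br q (τ i) (τ (i + 1))

lemma Cut.le {q : ℕ → ℤ × ℤ} {m s t : ℕ} (h : Cut q m s t) : s ≤ t := by
  obtain ⟨τ, h1, h2, h3⟩ := h
  have : ∀ j ≤ m, τ 0 ≤ τ j := by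
    intro j
    induction j with
    | zero => intro _; exact le_rfl
    | succ j ih => intro hj; exact (ih (by omega)).trans (h3 j (by omega)).1
  rw [← h1, ← h2]
  exact this m le_rfl

theorem N_cut {q : ℕ → ℤ × ℤ} {m s t : ℕ} (H : Saw q s t) (h : Cut q m s t) (β k : ℤ) :
    |N q s t β k| ≤ m := by
  induction m generalizing t with
  | zero =>
    obtain ⟨τ, h1, h2, -⟩ := h
    rw [h1] at h2
    rw [h2, N_self]
    simp
  | succ m ih =>
    obtain ⟨τ, h1, h2, h3⟩ := h
    have hc : Cut q m s (τ m) := ⟨τ, h1, rfl, fun i hi => h3 i (by omega)⟩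
    have hb := h3 m (by omega)
    rw [h2] at hb
    rw [← N_add q hc.le hb.1]
    have e1 := ih (H.mono le_rfl hb.1) hc
    have e2 := N_br (H.mono hc.le le_rfl) hb β k
    push_cast
    exact (abs_add_le _ _).trans (add_le_add e1 e2)

end Run7.h287.WN
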