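import Mathlib

/-!
Planar lattice paths, drawn on `ℤ × ℤ` with steps `±(1,0)`, `±(0,1)`, `±(1,-1)`: flows and
crossings of dual half-lines.
-/

set_option linter.unusedSimpArgs false
set_option linter.flexible false

namespace Run7.h287.WN

open Classical in
/-- the indicator of `P` -/
noncomputable def I (P : Prop) : ℤ := if P then 1 else 0

lemma I_congr {P Q : Prop} (h : P ↔ Q) : I P = I Q := by rw [propext h]

lemma I_neg {P : Prop} (h : ¬ P) : I P = 0 := if_neg h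

lemma I_pos {P : Prop} (h : P) : I P = 1 := if_pos h

/-- the six directions, counterclockwise -/
def dir : Fin 6 → ℤ × ℤ := ![(1, 0), (0, 1), (-1, 1), (-1, 0), (0, -1), (1, -1)]

/-- crossing of the strip between the rows `β - 1` and `β`, at a position `≤ k` -/
noncomputable def cr (u v : ℤ × ℤ) (β k : ℤ) : ℤ :=
  I (u.2 = β ∧ v.2 = β - 1 ∧ u.1 + v.1 ≤ k) - I (u.2 = β - 1 ∧ v.2 = β ∧ u.1 + v.1 ≤ k)

/-- the crossing at the position `k` -/
noncomputable def cre (u v : ℤ × ℤ) (β k : ℤ) : ℤ :=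
  I (u.2 = β ∧ v.2 = β - 1 ∧ u.1 + v.1 = k) - I (u.2 = β - 1 ∧ v.2 = β ∧ u.1 + v.1 = k)

/-- the horizontal flow from `(a, b)` to `(a + 1, b)` -/
noncomputable def hz (u v : ℤ × ℤ) (a b : ℤ) : ℤ :=
  I (u = (a, b) ∧ v = (a + 1, b)) - I (u = (a + 1, b) ∧ v = (a, b))

lemma cr_sub (u v : ℤ × ℤ) (β k : ℤ) : cr u v β k - cr u v β (k - 1) = cre u v β k := by
  unfold cr cre I
  by_cases h1 : u.2 = β ∧ v.2 = β - 1
  · have e1 : ¬ (u.2 = β - 1 ∧ v.2 = β ∧ u.1 + v.1 ≤ k) := by omega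
    have e2 : ¬ (u.2 = β - 1 ∧ v.2 = β ∧ u.1 + v.1 ≤ k - 1) := by omega
    have e3 : ¬ (u.2 = β - 1 ∧ v.2 = β ∧ u.1 + v.1 = k) := by omega
    rw [if_neg e1, if_neg e2, if_neg e3]
    simp only [h1.1, h1.2, true_and]
    split_ifs <;> omega
  · have e1 : ¬ (u.2 = β ∧ v.2 = β - 1 ∧ u.1 + v.1 ≤ k) := by omega
    have e2 : ¬ (u.2 = β ∧ v.2 = β - 1 ∧ u.1 + v.1 ≤ k - 1) := by omega
    have e3 : ¬ (u.2 = β ∧ v.2 = β - 1 ∧ u.1 + v.1 = k) := by omega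
    rw [if_neg e1, if_neg e2, if_neg e3]
    by_cases h2 : u.2 = β - 1 ∧ v.2 = β
    · simp only [h2.1, h2.2, true_and]
      split_ifs <;> omega
    · have e1 : ¬ (u.2 = β - 1 ∧ v.2 = β ∧ u.1 + v.1 ≤ k) := by omega
      have e2 : ¬ (u.2 = β - 1 ∧ v.2 = β ∧ u.1 + v.1 ≤ k - 1) := by omega
      have e3 : ¬ (u.2 = β - 1 ∧ v.2 = β ∧ u.1 + v.1 = k) := by omega
      rw [if_neg e1, if_neg e2, if_neg e3]
      norm_num

/-- the difference of the crossings above and below the edge from `(a, b)` to `(a + 1, b)` -/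
lemma step_hz (u : ℤ × ℤ) (d : Fin 6) (a b : ℤ) :
    cr u (u + dir d) (b + 1) (2 * a) - cr u (u + dir d) b (2 * a + 1) =
      hz u (u + dir d) a b + I ((u + dir d).2 = b ∧ (u + dir d).1 ≤ a) -
        I (u.2 = b ∧ u.1 ≤ a) := by
  obtain ⟨x, y⟩ := u
  unfold cr hz
  fin_cases d
  · simp only [dir, Matrix.cons_val_zero, Matrix.cons_val_one,
      Matrix.cons_val, Prod.mk_add_mk, Prod.mk.injEq, Fin.isValue, Fin.zero_eta, Fin.mk_one,
      Fin.reduceFinMk, add_zero]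
    rw [I_neg (show ¬ (y = b + 1 ∧ y = b + 1 - 1 ∧ x + (x + 1) ≤ 2 * a) by omega),
      I_neg (show ¬ (y = b + 1 - 1 ∧ y = b + 1 ∧ x + (x + 1) ≤ 2 * a) by omega),
      I_neg (show ¬ (y = b ∧ y = b - 1 ∧ x + (x + 1) ≤ 2 * a + 1) by omega),
      I_neg (show ¬ (y = b - 1 ∧ y = b ∧ x + (x + 1) ≤ 2 * a + 1) by omega),
      I_neg (show ¬ ((x = a + 1 ∧ y = b) ∧ x + 1 = a ∧ y = b) by omega)]
    unfold I
    by_cases hy : y = b
    · subst hy
      simp only [and_true, true_and]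
      split_ifs <;> omega
    · simp [hy]
  · simp only [dir, Matrix.cons_val_zero, Matrix.cons_val_one,
      Matrix.cons_val, Prod.mk_add_mk, Prod.mk.injEq, Fin.isValue, Fin.zero_eta, Fin.mk_one,
      Fin.reduceFinMk, add_zero]
    rw [I_neg (show ¬ (y = b + 1 ∧ y + 1 = b + 1 - 1 ∧ x + x ≤ 2 * a) by omega),
      I_congr (show (y = b + 1 - 1 ∧ y + 1 = b + 1 ∧ x + x ≤ 2 * a) ↔ (y = b ∧ x ≤ a) by omega),
      I_neg (show ¬ (y = b ∧ y + 1 = b - 1 ∧ x + x ≤ 2 * a + 1) by omega),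
      I_congr (show (y = b - 1 ∧ y + 1 = b ∧ x + x ≤ 2 * a + 1) ↔ (y + 1 = b ∧ x ≤ a) by omega),
      I_neg (show ¬ ((x = a ∧ y = b) ∧ x = a + 1 ∧ y + 1 = b) by omega),
      I_neg (show ¬ ((x = a + 1 ∧ y = b) ∧ x = a ∧ y + 1 = b) by omega)]
    ring
  · simp only [dir, Matrix.cons_val_zero, Matrix.cons_val_one,
      Matrix.cons_val, Prod.mk_add_mk, Prod.mk.injEq, Fin.isValue, Fin.zero_eta, Fin.mk_one,
      Fin.reduceFinMk, add_zero]
    rw [I_neg (show ¬ (y = b + 1 ∧ y + 1 = b + 1 - 1 ∧ x + (x + -1) ≤ 2 * a) by omega),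
      I_congr (show (y = b + 1 - 1 ∧ y + 1 = b + 1 ∧ x + (x + -1) ≤ 2 * a) ↔
        (y = b ∧ x ≤ a) by omega),
      I_neg (show ¬ (y = b ∧ y + 1 = b - 1 ∧ x + (x + -1) ≤ 2 * a + 1) by omega),
      I_congr (show (y = b - 1 ∧ y + 1 = b ∧ x + (x + -1) ≤ 2 * a + 1) ↔
        (y + 1 = b ∧ x + -1 ≤ a) by omega),
      I_neg (show ¬ ((x = a ∧ y = b) ∧ x + -1 = a + 1 ∧ y + 1 = b) by omega),
      I_neg (show ¬ ((x = a + 1 ∧ y = b) ∧ x + -1 = a ∧ y + 1 = b) by omega)]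
    ring
  · simp only [dir, Matrix.cons_val_zero, Matrix.cons_val_one,
      Matrix.cons_val, Prod.mk_add_mk, Prod.mk.injEq, Fin.isValue, Fin.zero_eta, Fin.mk_one,
      Fin.reduceFinMk, add_zero]
    rw [I_neg (show ¬ (y = b + 1 ∧ y = b + 1 - 1 ∧ x + (x + -1) ≤ 2 * a) by omega),
      I_neg (show ¬ (y = b + 1 - 1 ∧ y = b + 1 ∧ x + (x + -1) ≤ 2 * a) by omega),
      I_neg (show ¬ (y = b ∧ y = b - 1 ∧ x + (x + -1) ≤ 2 * a + 1) by omega),
      I_neg (show ¬ (y = b - 1 ∧ y = b ∧ x + (x + -1) ≤ 2 * a + 1) by omega),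
      I_neg (show ¬ ((x = a ∧ y = b) ∧ x + -1 = a + 1 ∧ y = b) by omega)]
    unfold I
    by_cases hy : y = b
    · subst hy
      simp only [and_true, true_and]
      split_ifs <;> omega
    · simp [hy]
  · simp only [dir, Matrix.cons_val_zero, Matrix.cons_val_one,
      Matrix.cons_val, Prod.mk_add_mk, Prod.mk.injEq, Fin.isValue, Fin.zero_eta, Fin.mk_one,
      Fin.reduceFinMk, add_zero]
    rw [I_congr (show (y = b + 1 ∧ y + -1 = b + 1 - 1 ∧ x + x ≤ 2 * a) ↔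
        (y + -1 = b ∧ x ≤ a) by omega),
      I_neg (show ¬ (y = b + 1 - 1 ∧ y + -1 = b + 1 ∧ x + x ≤ 2 * a) by omega),
      I_congr (show (y = b ∧ y + -1 = b - 1 ∧ x + x ≤ 2 * a + 1) ↔ (y = b ∧ x ≤ a) by omega),
      I_neg (show ¬ (y = b - 1 ∧ y + -1 = b ∧ x + x ≤ 2 * a + 1) by omega),
      I_neg (show ¬ ((x = a ∧ y = b) ∧ x = a + 1 ∧ y + -1 = b) by omega),
      I_neg (show ¬ ((x = a + 1 ∧ y = b) ∧ x = a ∧ y + -1 = b) by omega)]
    ring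
  · simp only [dir, Matrix.cons_val_zero, Matrix.cons_val_one,
      Matrix.cons_val, Prod.mk_add_mk, Prod.mk.injEq, Fin.isValue, Fin.zero_eta, Fin.mk_one,
      Fin.reduceFinMk, add_zero]
    rw [I_congr (show (y = b + 1 ∧ y + -1 = b + 1 - 1 ∧ x + (x + 1) ≤ 2 * a) ↔
        (y + -1 = b ∧ x + 1 ≤ a) by omega),
      I_neg (show ¬ (y = b + 1 - 1 ∧ y + -1 = b + 1 ∧ x + (x + 1) ≤ 2 * a) by omega),
      I_congr (show (y = b ∧ y + -1 = b - 1 ∧ x + (x + 1) ≤ 2 * a + 1) ↔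
        (y = b ∧ x ≤ a) by omega),
      I_neg (show ¬ (y = b - 1 ∧ y + -1 = b ∧ x + (x + 1) ≤ 2 * a + 1) by omega),
      I_neg (show ¬ ((x = a ∧ y = b) ∧ x + 1 = a + 1 ∧ y + -1 = b) by omega),
      I_neg (show ¬ ((x = a + 1 ∧ y = b) ∧ x + 1 = a ∧ y + -1 = b) by omega)]
    ring

/-- the outflow of the step from `u` to `v` at the vertex `x` in the direction `k` -/
noncomputable def g (x u v : ℤ × ℤ) : Fin 6 → ℤ :=
  ![hz u v x.1 x.2, -cre u v (x.2 + 1) (2 * x.1), -cre u v (x.2 + 1) (2 * x.1 - 1),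
    -hz u v (x.1 - 1) x.2, cre u v x.2 (2 * x.1), cre u v x.2 (2 * x.1 + 1)]

lemma g_out (x : ℤ × ℤ) (d k : Fin 6) : g x x (x + dir d) k = I (k = d) := by
  obtain ⟨a, b⟩ := x
  unfold g cre hz
  fin_cases d <;> fin_cases k <;>
  · simp [dir]
    try unfold I
    try simp
    try omega

end Run7.h287.WN
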