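import Pool.Agent.Run7.h287.WN.Hopf
import Pool.Agent.Run7.h529.FB.ZFin

/-!
The regular square, triangular and honeycomb lattices in the plane; winding angles and turnings of
their self-avoiding walks in terms of the number of bridges.
-/

set_option linter.unusedSimpArgs false
set_option linter.flexible false
set_option linter.unusedVariables false

namespace Run7.h287.WN

open Real Run7.h529.FB

/-- the position in the plane of the vertex `p` of the lattice -/
noncomputable def pos : Lattice → ℤ × ℤ → ℂ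
  | .square => fun p => p.1 + p.2 * Complex.I
  | .triangular => fun p => p.1 + p.2 * (⟨1 / 2, √3 / 2⟩ : ℂ)
  | .honeycomb => fun p => ⟨√3 / 2 * p.1, 3 / 2 * p.2 + if Even (p.1 + p.2) then 1 / 2 else 0⟩

lemma pos_square : pos .square = E Complex.I := rfl

lemma pos_triangular : pos .triangular = E ⟨1 / 2, √3 / 2⟩ := rfl

lemma adj_dir {G : Lattice} {p q : ℤ × ℤ} (h : Adj G p q) : ∃ d : Fin 6, q = p + dir d := by
  obtain ⟨a, b⟩ := p
  obtain ⟨x, y⟩ := q
  cases G with
  | square =>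
    simp only [Adj] at h
    have h' : (x = a + 1 ∧ y = b) ∨ (x = a - 1 ∧ y = b) ∨ (x = a ∧ y = b + 1) ∨
        (x = a ∧ y = b - 1) := by
      rcases abs_cases (a - x) with h1 | h1 <;> rcases abs_cases (b - y) with h2 | h2 <;> omega
    rcases h' with ⟨rfl, rfl⟩ | ⟨rfl, rfl⟩ | ⟨rfl, rfl⟩ | ⟨rfl, rfl⟩
    · exact ⟨0, by simp [dir]⟩
    · exact ⟨3, by simp [dir]; rfl⟩
    · exact ⟨1, by simp [dir]⟩
    · exact ⟨4, by simp [dir]; rfl⟩
  | triangular =>
    simp only [Adj, Set.mem_insert_iff, Set.mem_singleton_iff, Prod.mk_sub_mk,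
      Prod.mk.injEq] at h
    rcases h with h | h | h | h | h | h
    · exact ⟨0, by simp [dir]; omega⟩
    · exact ⟨3, by simp [dir]; omega⟩
    · exact ⟨1, by simp [dir]; omega⟩
    · exact ⟨4, by simp [dir]; omega⟩
    · exact ⟨5, by simp [dir]; omega⟩
    · exact ⟨2, by simp [dir]; omega⟩
  | honeycomb =>
    simp only [Adj, Prod.mk_sub_mk, Prod.mk.injEq] at h
    rcases h with h | h | h | h
    · exact ⟨0, by simp [dir]; omega⟩
    · exact ⟨3, by simp [dir]; omega⟩
    · exact ⟨1, by simp [dir]; omega⟩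
    · exact ⟨4, by simp [dir]; omega⟩

lemma sq3 : √3 * √3 = 3 := Real.mul_self_sqrt (by norm_num)

lemma honey_square {p q : ℤ × ℤ} (h : Adj .honeycomb p q) : Adj .square p q := by
  obtain ⟨a, b⟩ := p
  obtain ⟨x, y⟩ := q
  simp only [Adj, Prod.mk_sub_mk, Prod.mk.injEq] at h ⊢
  rcases abs_cases (a - x) with h1 | h1 <;> rcases abs_cases (b - y) with h2 | h2 <;> omega

lemma ns_square (p q : ℤ × ℤ) : Complex.normSq (pos .square q - pos .square p) =
    ((q.1 - p.1 : ℤ) : ℝ) ^ 2 + ((q.2 - p.2 : ℤ) : ℝ) ^ 2 := by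
  rw [Complex.normSq_apply]
  simp [pos]
  ring

lemma ns_triangular (p q : ℤ × ℤ) : Complex.normSq (pos .triangular q - pos .triangular p) =
    ((q.1 - p.1 : ℤ) : ℝ) ^ 2 + ((q.1 - p.1 : ℤ) : ℝ) * ((q.2 - p.2 : ℤ) : ℝ) +
      ((q.2 - p.2 : ℤ) : ℝ) ^ 2 := by
  rw [Complex.normSq_apply]
  simp [pos]
  have h := sq3
  ring_nf
  ring_nf at h
  rw [h]
  ring

lemma step_square {p q : ℤ × ℤ} (h : Adj .square p q) :
    Complex.normSq (pos .square q - pos .square p) = 1 := by
  rw [ns_square]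
  obtain ⟨a, b⟩ := p
  obtain ⟨x, y⟩ := q
  simp only [Adj] at h
  have h' : (x - a = 1 ∧ y - b = 0) ∨ (x - a = -1 ∧ y - b = 0) ∨ (x - a = 0 ∧ y - b = 1) ∨
      (x - a = 0 ∧ y - b = -1) := by
    rcases abs_cases (a - x) with h1 | h1 <;> rcases abs_cases (b - y) with h2 | h2 <;> omega
  rcases h' with ⟨h1, h2⟩ | ⟨h1, h2⟩ | ⟨h1, h2⟩ | ⟨h1, h2⟩ <;> simp only [h1, h2] <;> norm_num

lemma int_form (a b : ℤ) (h : ¬ (a = 0 ∧ b = 0)) : 1 ≤ a ^ 2 + b ^ 2 := by
  by_contra hcon
  push Not at hcon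
  apply h
  constructor
  · nlinarith [sq_nonneg a, sq_nonneg b]
  · nlinarith [sq_nonneg a, sq_nonneg b]

lemma int_form3 (a b : ℤ) (h : ¬ (a = 0 ∧ b = 0)) : 1 ≤ a ^ 2 + a * b + b ^ 2 := by
  by_contra hcon
  push Not at hcon
  have h1 : a ^ 2 + a * b + b ^ 2 ≤ 0 := by omega
  apply h
  have ha : a ^ 2 ≤ 0 := by nlinarith [sq_nonneg (a + 2 * b)]
  have hb : b ^ 2 ≤ 0 := by nlinarith [sq_nonneg (2 * a + b)]
  exact ⟨by nlinarith, by nlinarith⟩

lemma honey_re (p q : ℤ × ℤ) : (pos .honeycomb q - pos .honeycomb p).re =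
    √3 / 2 * ((q.1 - p.1 : ℤ) : ℝ) := by
  simp [pos]
  ring

lemma honey_im (p q : ℤ × ℤ) : ∃ ε : ℤ, (pos .honeycomb q - pos .honeycomb p).im =
    (3 * ((q.2 - p.2 : ℤ) : ℝ) + (ε : ℝ)) / 2 ∧
    ((Even (q.1 + q.2) ∧ ¬ Even (p.1 + p.2) ∧ ε = 1) ∨
      (¬ Even (q.1 + q.2) ∧ Even (p.1 + p.2) ∧ ε = -1) ∨
      ((Even (q.1 + q.2) ↔ Even (p.1 + p.2)) ∧ ε = 0)) := by
  by_cases h1 : Even (q.1 + q.2) <;> by_cases h2 : Even (p.1 + p.2)
  · refine ⟨0, ?_, Or.inr (Or.inr ⟨by tauto, rfl⟩)⟩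
    simp only [pos, Complex.sub_im, if_pos h1, if_pos h2]
    push_cast
    ring
  · refine ⟨1, ?_, Or.inl ⟨h1, h2, rfl⟩⟩
    simp only [pos, Complex.sub_im, if_pos h1, if_neg h2]
    push_cast
    ring
  · refine ⟨-1, ?_, Or.inr (Or.inl ⟨h1, h2, rfl⟩)⟩
    simp only [pos, Complex.sub_im, if_neg h1, if_pos h2]
    push_cast
    ring
  · refine ⟨0, ?_, Or.inr (Or.inr ⟨by tauto, rfl⟩)⟩
    simp only [pos, Complex.sub_im, if_neg h1, if_neg h2]
    push_cast
    ring

lemma ns_honey (p q : ℤ × ℤ) : ∃ ε : ℤ,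
    4 * Complex.normSq (pos .honeycomb q - pos .honeycomb p) =
      ((3 * (q.1 - p.1) ^ 2 + (3 * (q.2 - p.2) + ε) ^ 2 : ℤ) : ℝ) ∧
    ((Even (q.1 + q.2) ∧ ¬ Even (p.1 + p.2) ∧ ε = 1) ∨
      (¬ Even (q.1 + q.2) ∧ Even (p.1 + p.2) ∧ ε = -1) ∨
      ((Even (q.1 + q.2) ↔ Even (p.1 + p.2)) ∧ ε = 0)) := by
  obtain ⟨ε, h1, h2⟩ := honey_im p q
  refine ⟨ε, ?_, h2⟩
  rw [Complex.normSq_apply, h1, honey_re]
  have h := sq3
  push_cast
  linear_combination ((q.1 : ℝ) - p.1) ^ 2 * h

lemma step_honey {p q : ℤ × ℤ} (h : Adj .honeycomb p q) :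
    Complex.normSq (pos .honeycomb q - pos .honeycomb p) = 1 := by
  obtain ⟨ε, h1, h2⟩ := ns_honey p q
  obtain ⟨a, b⟩ := p
  obtain ⟨x, y⟩ := q
  simp only [Adj, Prod.mk_sub_mk, Prod.mk.injEq] at h
  simp only at h1 h2
  have key : 3 * (x - a) ^ 2 + (3 * (y - b) + ε) ^ 2 = 4 := by
    rcases h with h | h | h | h
    · have hε : ε = 1 ∨ ε = -1 := by
        rcases h2 with h2 | h2 | h2
        · exact Or.inl h2.2.2
        · exact Or.inr h2.2.2
        · exfalso
          have e : x + y = a + b + 1 := by omega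
          rw [e, Int.even_add_one] at h2
          tauto
      rw [h.1, h.2]
      rcases hε with rfl | rfl <;> norm_num
    · have hε : ε = 1 ∨ ε = -1 := by
        rcases h2 with h2 | h2 | h2
        · exact Or.inl h2.2.2
        · exact Or.inr h2.2.2
        · exfalso
          have e : a + b = x + y + 1 := by omega
          rw [e, Int.even_add_one] at h2
          tauto
      rw [h.1, h.2]
      rcases hε with rfl | rfl <;> norm_num
    · obtain ⟨⟨h3, h4⟩, h5⟩ := h
      have e : x + y = a + b + 1 := by omega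
      rw [e, Int.even_add_one] at h2
      have hε : ε = -1 := by tauto
      rw [h3, h4, hε]; norm_num
    · obtain ⟨⟨h3, h4⟩, h5⟩ := h
      have e : a + b = x + y + 1 := by omega
      rw [e, Int.even_add_one] at h2
      have hε : ε = 1 := by tauto
      rw [h3, h4, hε]; norm_num
  have key' : ((3 * (x - a) ^ 2 + (3 * (y - b) + ε) ^ 2 : ℤ) : ℝ) = 4 := by exact_mod_cast key
  linarith

lemma sep_honey {p q : ℤ × ℤ} (h : p ≠ q) :
    1 ≤ Complex.normSq (pos .honeycomb q - pos .honeycomb p) := by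
  obtain ⟨ε, h1, h2⟩ := ns_honey p q
  obtain ⟨a, b⟩ := p
  obtain ⟨x, y⟩ := q
  simp only at h1 h2
  have h' : ¬ (x - a = 0 ∧ y - b = 0) := by
    intro h3
    apply h
    rw [Prod.mk.injEq]
    omega
  have key : 4 ≤ 3 * (x - a) ^ 2 + (3 * (y - b) + ε) ^ 2 := by
    have hε : -1 ≤ ε ∧ ε ≤ 1 := by
      rcases h2 with h2 | h2 | h2 <;> omega
    by_cases hxa : x - a = 0
    · have hyb : y - b ≠ 0 := fun h3 => h' ⟨hxa, h3⟩
      rw [hxa]
      have : 2 ≤ 3 * (y - b) + ε ∨ 3 * (y - b) + ε ≤ -2 := by omega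
      rcases this with h3 | h3 <;> nlinarith
    · by_cases hyb : 3 * (y - b) + ε = 0
      · have h4 : y - b = 0 := by omega
        have h5 : ε = 0 := by omega
        have h6 : (Even (x + y) ↔ Even (a + b)) := by
          rcases h2 with h2 | h2 | h2
          · omega
          · omega
          · exact h2.1
        have h7 : Even ((x + y) - (a + b)) := Int.even_sub.mpr h6
        have h8 : (x + y) - (a + b) = x - a := by omega
        rw [h8] at h7
        obtain ⟨c, hc⟩ := h7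
        rw [hyb, hc]
        have : c ≠ 0 := by omega
        have : 1 ≤ c ^ 2 := by
          rcases lt_or_gt_of_ne this with h9 | h9 <;> nlinarith
        nlinarith
      · have h3 : 1 ≤ (x - a) ^ 2 := by
          rcases lt_or_gt_of_ne hxa with h9 | h9 <;> nlinarith
        have h4 : 1 ≤ (3 * (y - b) + ε) ^ 2 := by
          rcases lt_or_gt_of_ne hyb with h9 | h9 <;> nlinarith
        omega
  have key' : (4 : ℝ) ≤ ((3 * (x - a) ^ 2 + (3 * (y - b) + ε) ^ 2 : ℤ) : ℝ) := by
    exact_mod_cast key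
  linarith

lemma step_tri {p q : ℤ × ℤ} (h : Adj .triangular p q) :
    Complex.normSq (pos .triangular q - pos .triangular p) = 1 := by
  rw [ns_triangular]
  obtain ⟨a, b⟩ := p
  obtain ⟨x, y⟩ := q
  simp only [Adj, Set.mem_insert_iff, Set.mem_singleton_iff, Prod.mk_sub_mk,
    Prod.mk.injEq] at h
  simp only
  rcases h with h | h | h | h | h | h <;> rw [h.1, h.2] <;> norm_num

lemma step_pos {G : Lattice} {p q : ℤ × ℤ} (h : Adj G p q) :
    Complex.normSq (pos G q - pos G p) = 1 := by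
  cases G with
  | square => exact step_square h
  | triangular => exact step_tri h
  | honeycomb => exact step_honey h

lemma sep_pos (G : Lattice) {p q : ℤ × ℤ} (h : p ≠ q) :
    1 ≤ Complex.normSq (pos G q - pos G p) := by
  have h' : ¬ (q.1 - p.1 = 0 ∧ q.2 - p.2 = 0) := by
    intro h3
    apply h
    rw [Prod.ext_iff]
    omega
  cases G with
  | square =>
    rw [ns_square]
    exact_mod_cast int_form _ _ h'
  | triangular =>
    rw [ns_triangular]
    exact_mod_cast int_form3 _ _ h'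
  | honeycomb => exact sep_honey h

/-- the brick wall and the honeycomb lattice: the vectors between vertices make acute angles -/
lemma honey_brick {p q : ℤ × ℤ} (h : p ≠ q) :
    0 < ((pos .honeycomb q - pos .honeycomb p) / (pos .square q - pos .square p)).re := by
  have h0 : 0 < Complex.normSq (pos .square q - pos .square p) := by
    have := sep_pos .square h
    linarith
  rw [Complex.div_re]
  have e : (pos .honeycomb q - pos .honeycomb p).re * (pos .square q - pos .square p).re /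
        Complex.normSq (pos .square q - pos .square p) +
      (pos .honeycomb q - pos .honeycomb p).im * (pos .square q - pos .square p).im /
        Complex.normSq (pos .square q - pos .square p) =
      ((pos .honeycomb q - pos .honeycomb p).re * (pos .square q - pos .square p).re +
      (pos .honeycomb q - pos .honeycomb p).im * (pos .square q - pos .square p).im) /
        Complex.normSq (pos .square q - pos .square p) := by ring
  rw [e]
  apply div_pos _ h0
  obtain ⟨ε, h1, h2⟩ := honey_im p q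
  rw [h1, honey_re]
  have e1 : (pos .square q - pos .square p).re = ((q.1 - p.1 : ℤ) : ℝ) := by simp [pos]
  have e2 : (pos .square q - pos .square p).im = ((q.2 - p.2 : ℤ) : ℝ) := by simp [pos]
  rw [e1, e2]
  have h' : ¬ (q.1 - p.1 = 0 ∧ q.2 - p.2 = 0) := by
    intro h3
    apply h
    rw [Prod.ext_iff]
    omega
  have hs : 0 < √3 := Real.sqrt_pos.mpr (by norm_num)
  have hε : -1 ≤ ε ∧ ε ≤ 1 := by
    rcases h2 with h2 | h2 | h2 <;> omega
  have k1 : 0 ≤ (q.2 - p.2) * (3 * (q.2 - p.2) + ε) := by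
    rcases lt_trichotomy (q.2 - p.2) 0 with h3 | h3 | h3
    · nlinarith
    · rw [h3]; simp
    · nlinarith
  have k1' : (0 : ℝ) ≤ ((q.2 - p.2 : ℤ) : ℝ) * (3 * ((q.2 - p.2 : ℤ) : ℝ) + (ε : ℝ)) := by
    exact_mod_cast k1
  by_cases hx : q.1 - p.1 = 0
  · have hy : q.2 - p.2 ≠ 0 := fun h3 => h' ⟨hx, h3⟩
    have k2 : 0 < (q.2 - p.2) * (3 * (q.2 - p.2) + ε) := by
      rcases lt_or_gt_of_ne hy with h3 | h3 <;> nlinarith
    have k2' : (0 : ℝ) < ((q.2 - p.2 : ℤ) : ℝ) * (3 * ((q.2 - p.2 : ℤ) : ℝ) + (ε : ℝ)) := by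
      exact_mod_cast k2
    rw [hx]
    push_cast at k2' ⊢
    nlinarith
  · have k3 : (0 : ℝ) < ((q.1 - p.1 : ℤ) : ℝ) ^ 2 := by
      have : ((q.1 - p.1 : ℤ) : ℝ) ≠ 0 := by exact_mod_cast hx
      positivity
    nlinarith

end Run7.h287.WN
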