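import Pool.Agent.Run7.h287.WN.Angle

/-!
Winding angles and turnings of sequences of points; Hopf's theorem for paths: the total turning is
the sum of the winding angles around the two end points.
-/

set_option linter.unusedSimpArgs false
set_option linter.flexible false
set_option linter.unusedVariables false

namespace Run7.h287.WN

open Real

/-- the winding angle around `c` of the piece of `x` between the times `s` and `t` -/
noncomputable def wind (x : ℕ → ℂ) (c : ℂ) (s t : ℕ) : ℝ :=
  ∑ i ∈ Finset.Ico s t, Complex.arg ((x (i + 1) - c) / (x i - c))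

/-- the total turning of the piece of `x` between the times `s` and `t` -/
noncomputable def turn (x : ℕ → ℂ) (s t : ℕ) : ℝ :=
  ∑ i ∈ Finset.Ico (s + 1) t, Complex.arg ((x (i + 1) - x i) / (x i - x (i - 1)))

lemma dir_small (d : Fin 6) : |(dir d).1| ≤ 1 ∧ |(dir d).2| ≤ 1 := by
  fin_cases d <;> simp [dir]

lemma wind_lin {τ : ℂ} (hτ : 0 < τ.im) {q : ℕ → ℤ × ℤ} {s t : ℕ} (hst : s ≤ t) (H : Saw q s t)
    (z : ℤ × ℤ) (hz : ∀ i, s ≤ i → i ≤ t → q i ≠ z) :
    wind (fun i => E τ (q i)) (E τ z) s t =
      Complex.arg (E τ (q t - z)) - Complex.arg (E τ (q s - z)) +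
        2 * π * N q s t z.2 (2 * z.1 - 1) := by
  induction t, hst using Nat.le_induction with
  | base => simp [wind, N]
  | succ t hst ih =>
    have ih' := ih (H.mono le_rfl (by omega)) (fun i h1 h2 => hz i h1 (by omega))
    unfold wind N at ih' ⊢
    rw [Finset.sum_Ico_succ_top hst, Finset.sum_Ico_succ_top hst, ih']
    obtain ⟨d, hd⟩ := H.step t hst (by omega)
    have h1 := arg_step hτ (u := q t - z) (v := q (t + 1) - z)
      (sub_ne_zero.mpr (hz t hst (by omega))) (sub_ne_zero.mpr (hz (t + 1) (by omega) le_rfl))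
      (by rw [hd]; simpa using (dir_small d).1) (by rw [hd]; simpa using (dir_small d).2)
    rw [E_sub, E_sub] at h1
    rw [h1, ← E_sub, ← E_sub]
    have h2 := chi_eq (u := q t) d z
    rw [← hd] at h2
    rw [h2]
    push_cast
    ring

lemma wind_lin_le {τ : ℂ} (hτ : 0 < τ.im) {q : ℕ → ℤ × ℤ} {s t m : ℕ} (H : Saw q s t)
    (hc : Cut q m s t) (z : ℤ × ℤ) (hz : ∀ i, s ≤ i → i ≤ t → q i ≠ z) :
    |wind (fun i => E τ (q i)) (E τ z) s t| ≤ 2 * π * (m + 1) := by
  rw [wind_lin hτ hc.le H z hz]
  have h1 := N_cut H hc z.2 (2 * z.1 - 1)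
  have h2 : |((N q s t z.2 (2 * z.1 - 1) : ℤ) : ℝ)| ≤ m := by exact_mod_cast h1
  have a1 := Complex.neg_pi_lt_arg (E τ (q t - z))
  have a2 := Complex.arg_le_pi (E τ (q t - z))
  have a3 := Complex.neg_pi_lt_arg (E τ (q s - z))
  have a4 := Complex.arg_le_pi (E τ (q s - z))
  have hpi := Real.pi_pos
  rw [abs_le] at h2 ⊢
  constructor <;> nlinarith

lemma re_pos_div {a b : ℂ} (ha : 1 ≤ Complex.normSq a) (hb : 1 ≤ Complex.normSq b)
    (hab : Complex.normSq (b - a) = 1) : 0 < (b / a).re := by
  have h0 : 0 < Complex.normSq a := by linarith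
  rw [Complex.div_re]
  have : b.re * a.re / Complex.normSq a + b.im * a.im / Complex.normSq a =
      (b.re * a.re + b.im * a.im) / Complex.normSq a := by ring
  rw [this]
  apply div_pos _ h0
  rw [Complex.normSq_apply] at ha hb hab
  simp only [Complex.sub_re, Complex.sub_im] at hab
  nlinarith

lemma ne_of_normSq {a : ℂ} (ha : 1 ≤ Complex.normSq a) : a ≠ 0 := by
  rintro rfl
  simp at ha
  linarith

lemma arg_small {z : ℂ} (h : 0 < z.re) : -(π / 2) < Complex.arg z ∧ Complex.arg z < π / 2 :=
  abs_lt.mp (Complex.abs_arg_lt_pi_div_two_iff.mpr (Or.inl h))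

/-- small angles add up -/
lemma arg_add {a b c : ℂ} (ha : a ≠ 0) (hb : b ≠ 0) (hc : c ≠ 0) (h1 : 0 < (b / a).re)
    (h2 : 0 < (c / b).re) : Complex.arg (b / a) + Complex.arg (c / b) = Complex.arg (c / a) := by
  have e1 := arg_small h1
  have e2 := arg_small h2
  rw [← Complex.arg_mul (div_ne_zero hb ha) (div_ne_zero hc hb)]
  · congr 1
    field_simp
  · constructor <;> linarith

/-- two sequences of vectors which make angles less than `π / 2` turn by the same angle up to
`π` -/
lemma compare {u v : ℕ → ℂ} {s t : ℕ} (hst : s ≤ t)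
    (hu : ∀ i, s ≤ i → i ≤ t → u i ≠ 0) (hv : ∀ i, s ≤ i → i ≤ t → v i ≠ 0)
    (huv : ∀ i, s ≤ i → i ≤ t → 0 < (v i / u i).re)
    (hu1 : ∀ i, s ≤ i → i < t → 0 < (u (i + 1) / u i).re)
    (hv1 : ∀ i, s ≤ i → i < t → 0 < (v (i + 1) / v i).re) :
    ∑ i ∈ Finset.Ico s t, Complex.arg (v (i + 1) / v i) =
      ∑ i ∈ Finset.Ico s t, Complex.arg (u (i + 1) / u i) +
        (Complex.arg (v t / u t) - Complex.arg (v s / u s)) := by
  induction t, hst using Nat.le_induction with
  | base => simp
  | succ t hst ih =>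
    rw [Finset.sum_Ico_succ_top hst, Finset.sum_Ico_succ_top hst,
      ih (fun i h1 h2 => hu i h1 (by omega)) (fun i h1 h2 => hv i h1 (by omega))
        (fun i h1 h2 => huv i h1 (by omega)) (fun i h1 h2 => hu1 i h1 (by omega))
        (fun i h1 h2 => hv1 i h1 (by omega))]
    have h1 := arg_add (hu t hst (by omega)) (hv t hst (by omega)) (hv (t + 1) (by omega) le_rfl)
      (huv t hst (by omega)) (hv1 t hst (by omega))
    have h2 := arg_add (hu t hst (by omega)) (hu (t + 1) (by omega) le_rfl)
      (hv (t + 1) (by omega) le_rfl) (hu1 t hst (by omega)) (huv (t + 1) (by omega) le_rfl)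
    linarith

/-- unit steps, and different points at distance at least one -/
structure Unit (x : ℕ → ℂ) (s t : ℕ) : Prop where
  step : ∀ i, s ≤ i → i < t → Complex.normSq (x (i + 1) - x i) = 1
  sep : ∀ i j, s ≤ i → i < j → j ≤ t → 1 ≤ Complex.normSq (x j - x i)

lemma Unit.mono {x : ℕ → ℂ} {s t s' t' : ℕ} (h : Unit x s t) (hs : s ≤ s') (ht : t' ≤ t) :
    Unit x s' t' :=
  ⟨fun i h1 h2 => h.step i (by omega) (by omega),
    fun i j h1 h2 h3 => h.sep i j (by omega) h2 (by omega)⟩

lemma normSq_sub_comm (a b : ℂ) : Complex.normSq (a - b) = Complex.normSq (b - a) := by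
  rw [← Complex.normSq_neg, neg_sub]

/-- **Hopf's theorem** for paths -/
theorem hopf {x : ℕ → ℂ} {s t : ℕ} (hst : s < t) (H : Unit x s t) :
    turn x s t = wind x (x s) (s + 1) t + wind x (x t) s (t - 1) := by
  induction t, hst using Nat.le_induction with
  | base => simp [turn, wind]
  | succ t hst ih =>
    have ih' := ih (H.mono le_rfl (by omega))
    have hst' : s + 1 ≤ t := hst
    obtain ⟨r, rfl⟩ : ∃ r, t = r + 1 := ⟨t - 1, by omega⟩
    rw [show r + 1 + 1 - 1 = r + 1 by omega]
    rw [show r + 1 - 1 = r by omega] at ih'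
    have hsr : s ≤ r := by omega
    -- the cells
    have hcell : ∀ i ∈ Finset.Ico s r,
        Complex.arg ((x (i + 1) - x (r + 1 + 1)) / (x i - x (r + 1 + 1))) =
        Complex.arg ((x (i + 1) - x (r + 1)) / (x i - x (r + 1))) +
        (Complex.arg ((x (i + 1) - x (r + 1 + 1)) / (x (i + 1) - x (r + 1))) -
          Complex.arg ((x i - x (r + 1 + 1)) / (x i - x (r + 1)))) := by
      intro i hi
      have hi' := Finset.mem_Ico.mp hi
      have na : 1 ≤ Complex.normSq (x i - x (r + 1)) := by
        rw [normSq_sub_comm]; exact H.sep i (r + 1) hi'.1 (by omega) (by omega)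
      have nb : 1 ≤ Complex.normSq (x i - x (r + 1 + 1)) := by
        rw [normSq_sub_comm]; exact H.sep i (r + 1 + 1) hi'.1 (by omega) (by omega)
      have nc : 1 ≤ Complex.normSq (x (i + 1) - x (r + 1 + 1)) := by
        rw [normSq_sub_comm]; exact H.sep (i + 1) (r + 1 + 1) (by omega) (by omega) (by omega)
      have nd : 1 ≤ Complex.normSq (x (i + 1) - x (r + 1)) := by
        rw [normSq_sub_comm]; exact H.sep (i + 1) (r + 1) (by omega) (by omega) (by omega)
      have hab : 0 < ((x i - x (r + 1 + 1)) / (x i - x (r + 1))).re := by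
        apply re_pos_div na nb
        rw [show x i - x (r + 1 + 1) - (x i - x (r + 1)) = x (r + 1) - x (r + 1 + 1) by ring,
          normSq_sub_comm]
        exact H.step (r + 1) (by omega) (by omega)
      have hbc : 0 < ((x (i + 1) - x (r + 1 + 1)) / (x i - x (r + 1 + 1))).re := by
        apply re_pos_div nb nc
        rw [show x (i + 1) - x (r + 1 + 1) - (x i - x (r + 1 + 1)) = x (i + 1) - x i by ring]
        exact H.step i hi'.1 (by omega)
      have had : 0 < ((x (i + 1) - x (r + 1)) / (x i - x (r + 1))).re := by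
        apply re_pos_div na nd
        rw [show x (i + 1) - x (r + 1) - (x i - x (r + 1)) = x (i + 1) - x i by ring]
        exact H.step i hi'.1 (by omega)
      have hdc : 0 < ((x (i + 1) - x (r + 1 + 1)) / (x (i + 1) - x (r + 1))).re := by
        apply re_pos_div nd nc
        rw [show x (i + 1) - x (r + 1 + 1) - (x (i + 1) - x (r + 1)) =
          x (r + 1) - x (r + 1 + 1) by ring, normSq_sub_comm]
        exact H.step (r + 1) (by omega) (by omega)
      have h1 := arg_add (ne_of_normSq na) (ne_of_normSq nb) (ne_of_normSq nc) hab hbc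
      have h2 := arg_add (ne_of_normSq na) (ne_of_normSq nd) (ne_of_normSq nc) had hdc
      linarith
    have htel : ∑ i ∈ Finset.Ico s r,
        (Complex.arg ((x (i + 1) - x (r + 1 + 1)) / (x (i + 1) - x (r + 1))) -
          Complex.arg ((x i - x (r + 1 + 1)) / (x i - x (r + 1)))) =
        Complex.arg ((x r - x (r + 1 + 1)) / (x r - x (r + 1))) -
        Complex.arg ((x s - x (r + 1 + 1)) / (x s - x (r + 1))) :=
      Finset.sum_Ico_sub (fun i => Complex.arg ((x i - x (r + 1 + 1)) / (x i - x (r + 1)))) hsr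
    have hlast : Complex.arg ((x r - x (r + 1 + 1)) / (x r - x (r + 1))) +
        Complex.arg ((x (r + 1) - x (r + 1 + 1)) / (x r - x (r + 1 + 1))) =
        Complex.arg ((x (r + 1 + 1) - x (r + 1)) / (x (r + 1) - x r)) := by
      have na : 1 ≤ Complex.normSq (x r - x (r + 1)) := by
        rw [normSq_sub_comm]; exact H.sep r (r + 1) hsr (by omega) (by omega)
      have nb : 1 ≤ Complex.normSq (x r - x (r + 1 + 1)) := by
        rw [normSq_sub_comm]; exact H.sep r (r + 1 + 1) hsr (by omega) (by omega)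
      have nc : 1 ≤ Complex.normSq (x (r + 1) - x (r + 1 + 1)) := by
        rw [normSq_sub_comm]; exact H.sep (r + 1) (r + 1 + 1) (by omega) (by omega) (by omega)
      rw [arg_add (ne_of_normSq na) (ne_of_normSq nb) (ne_of_normSq nc)]
      · congr 1
        rw [← neg_sub (x (r + 1)) (x (r + 1 + 1)), ← neg_sub (x r) (x (r + 1)), neg_div_neg_eq]
      · apply re_pos_div na nb
        rw [show x r - x (r + 1 + 1) - (x r - x (r + 1)) = x (r + 1) - x (r + 1 + 1) by ring,
          normSq_sub_comm]
        exact H.step (r + 1) (by omega) (by omega)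
      · apply re_pos_div nb nc
        rw [show x (r + 1) - x (r + 1 + 1) - (x r - x (r + 1 + 1)) = x (r + 1) - x r by ring]
        exact H.step r hsr (by omega)
    have hfirst : Complex.arg ((x s - x (r + 1 + 1)) / (x s - x (r + 1))) =
        Complex.arg ((x (r + 1 + 1) - x s) / (x (r + 1) - x s)) := by
      congr 1
      rw [← neg_sub (x s) (x (r + 1 + 1)), ← neg_sub (x s) (x (r + 1)), neg_div_neg_eq]
    unfold turn wind at ih' ⊢
    rw [Finset.sum_Ico_succ_top hst', ih', Finset.sum_Ico_succ_top hst',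
      Finset.sum_Ico_succ_top hsr, Finset.sum_congr rfl hcell, Finset.sum_add_distrib, htel]
    rw [show r + 1 - 1 = r by omega]
    linarith

end Run7.h287.WN
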