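import Pool.Agent.Run7.h287.WN.Cross

/-!
A Jordan curve theorem for lattice paths from the leftmost to the rightmost column.
-/

set_option linter.unusedSimpArgs false
set_option linter.flexible false
set_option linter.unusedVariables false

namespace Run7.h287.WN

lemma g_in (x : ℤ × ℤ) (d k : Fin 6) : g x (x + dir d) x k = - I (k = d) := by
  obtain ⟨a, b⟩ := x
  unfold g cre hz
  fin_cases d <;> fin_cases k <;>
  · simp [dir]
    try unfold I
    try simp
    try omega

lemma g_loc (x u : ℤ × ℤ) (d k : Fin 6) (h1 : u ≠ x) (h2 : u + dir d ≠ x) :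
    g x u (u + dir d) k = 0 := by
  obtain ⟨a, b⟩ := x
  obtain ⟨p, q⟩ := u
  rw [Ne, Prod.mk.injEq] at h1
  unfold g cre hz
  fin_cases d <;>
  · simp only [dir, Matrix.cons_val_zero, Matrix.cons_val_one,
      Matrix.cons_val, Prod.mk_add_mk, Prod.mk.injEq, Fin.isValue, Fin.zero_eta, Fin.mk_one,
      Fin.reduceFinMk, add_zero, Ne] at h2 ⊢
    fin_cases k <;>
    · simp only [Matrix.cons_val_zero, Matrix.cons_val_one,
        Matrix.cons_val, Fin.isValue, Fin.zero_eta, Fin.mk_one, Fin.reduceFinMk]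
      rw [I_neg (by omega), I_neg (by omega)]
      norm_num

/-- the six faces at the vertex `x`, counterclockwise, between the directions `k` and `k + 1`;
`(β, k)` is the `k`-th triangle in the strip between the rows `β - 1` and `β` -/
def fc (x : ℤ × ℤ) : Fin 6 → ℤ × ℤ :=
  ![(x.2 + 1, 2 * x.1), (x.2 + 1, 2 * x.1 - 1), (x.2 + 1, 2 * x.1 - 2), (x.2, 2 * x.1 - 1),
    (x.2, 2 * x.1), (x.2, 2 * x.1 + 1)]

lemma fc_shift (x : ℤ × ℤ) (k : Fin 6) : fc (x + dir k) (k + 3) = fc x (k - 1) := by
  obtain ⟨a, b⟩ := x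
  fin_cases k <;> simp [fc, dir] <;> omega

variable (p : ℕ → ℤ × ℤ) (m : ℕ)

/-- one more than the net crossing number for the faces above the starting row -/
noncomputable def w (f : ℤ × ℤ) : ℤ :=
  I ((p 0).2 < f.1) + ∑ i ∈ Finset.range m, cr (p i) (p (i + 1)) f.1 f.2

/-- a path with a first step to the right, in its leftmost column only at the beginning, and ending
in its rightmost column -/
structure Good : Prop where
  inj : ∀ i ≤ m, ∀ j ≤ m, p i = p j → i = j
  step : ∀ i < m, ∃ d : Fin 6, p (i + 1) = p i + dir d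
  pos : 1 ≤ m
  first : p 1 = p 0 + dir 0
  lo : ∀ i ≤ m, 1 ≤ i → (p 0).1 < (p i).1
  hi : ∀ i ≤ m, (p i).1 ≤ (p m).1

variable {p m}

lemma w_vert (f1 f2 : ℤ) : w p m (f1, f2) - w p m (f1, f2 - 1) =
    ∑ i ∈ Finset.range m, cre (p i) (p (i + 1)) f1 f2 := by
  unfold w
  simp only
  rw [add_sub_add_left_eq_sub, ← Finset.sum_sub_distrib]
  exact Finset.sum_congr rfl fun i _ => cr_sub _ _ _ _

lemma w_hor (hs : ∀ i < m, ∃ d : Fin 6, p (i + 1) = p i + dir d) (a b : ℤ)
    (h0 : (p 0).1 ≤ a) (hm : ¬ ((p m).2 = b ∧ (p m).1 ≤ a)) :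
    w p m (b + 1, 2 * a) - w p m (b, 2 * a + 1) =
      ∑ i ∈ Finset.range m, hz (p i) (p (i + 1)) a b := by
  unfold w
  simp only
  have h1 : ∑ i ∈ Finset.range m, cr (p i) (p (i + 1)) (b + 1) (2 * a) -
      ∑ i ∈ Finset.range m, cr (p i) (p (i + 1)) b (2 * a + 1) =
      ∑ i ∈ Finset.range m, hz (p i) (p (i + 1)) a b +
        (I ((p m).2 = b ∧ (p m).1 ≤ a) - I ((p 0).2 = b ∧ (p 0).1 ≤ a)) := by
    rw [← Finset.sum_range_sub (fun i => I ((p i).2 = b ∧ (p i).1 ≤ a)),
      ← Finset.sum_sub_distrib, ← Finset.sum_add_distrib]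
    apply Finset.sum_congr rfl
    intro i hi
    obtain ⟨d, hd⟩ := hs i (Finset.mem_range.mp hi)
    have := step_hz (p i) d a b
    rw [← hd] at this
    rw [this]
    ring
  rw [I_neg hm] at h1
  have h2 : I ((p 0).2 < b + 1) - I ((p 0).2 < b) = I ((p 0).2 = b ∧ (p 0).1 ≤ a) := by
    unfold I
    split_ifs <;> omega
  linarith

lemma jump (H : Good p m) {x : ℤ × ℤ} (h0 : (p 0).1 < x.1) (hm : x.1 ≤ (p m).1)
    (hne : x ≠ p m) (k : Fin 6) :
    w p m (fc x k) - w p m (fc x (k - 1)) =
      ∑ i ∈ Finset.range m, g x (p i) (p (i + 1)) k := by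
  obtain ⟨a, b⟩ := x
  simp only at h0 hm
  have hm' : ¬ ((p m).2 = b ∧ (p m).1 ≤ a) := by
    rintro ⟨h1, h2⟩
    apply hne
    rw [Prod.ext_iff]
    exact ⟨by simp only; omega, h1.symm⟩
  have hm'' : ¬ ((p m).2 = b ∧ (p m).1 ≤ a - 1) := by
    rintro ⟨h1, h2⟩
    omega
  fin_cases k
  · have := w_hor H.step a b h0.le hm'
    simpa [fc, g] using this
  · have := w_vert (p := p) (m := m) (b + 1) (2 * a)
    simp only [fc, g, Fin.mk_one, Fin.isValue, Matrix.cons_val_one, Matrix.cons_val_zero,
      sub_self, Matrix.cons_val]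
    rw [Finset.sum_neg_distrib]
    linarith
  · have := w_vert (p := p) (m := m) (b + 1) (2 * a - 1)
    have e : (2 * a - 1 - 1 : ℤ) = 2 * a - 2 := by ring
    rw [e] at this
    have e2 : fc (a, b) (⟨2, by norm_num⟩ - 1) = (b + 1, 2 * a - 1) := rfl
    rw [e2]
    simp only [fc, g, Fin.reduceFinMk, Fin.isValue, Matrix.cons_val_one, Matrix.cons_val_zero,
      Matrix.cons_val]
    rw [Finset.sum_neg_distrib]
    linarith
  · have := w_hor H.step (a - 1) b (by omega) hm''
    have e2 : fc (a, b) (⟨3, by norm_num⟩ - 1) = (b + 1, 2 * a - 2) := rfl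
    rw [e2]
    simp only [fc, g, Fin.reduceFinMk, Fin.isValue, Matrix.cons_val_one, Matrix.cons_val_zero,
      Matrix.cons_val]
    rw [Finset.sum_neg_distrib, ← this]
    rw [show (2 * (a - 1) : ℤ) = 2 * a - 2 by ring, show (2 * a - 2 + 1 : ℤ) = 2 * a - 1 by ring]
    ring
  · have := w_vert (p := p) (m := m) b (2 * a)
    have e2 : fc (a, b) (⟨4, by norm_num⟩ - 1) = (b, 2 * a - 1) := rfl
    rw [e2]
    simp only [fc, g, Fin.reduceFinMk, Fin.isValue, Matrix.cons_val_one, Matrix.cons_val_zero,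
      Matrix.cons_val]
    linarith
  · have := w_vert (p := p) (m := m) b (2 * a + 1)
    have e2 : fc (a, b) (⟨5, by norm_num⟩ - 1) = (b, 2 * a) := rfl
    rw [e2]
    rw [show (2 * a + 1 - 1 : ℤ) = 2 * a by ring] at this
    simp only [fc, g, Fin.reduceFinMk, Fin.isValue, Matrix.cons_val_one, Matrix.cons_val_zero,
      Matrix.cons_val]
    linarith

lemma dir_opp (d : Fin 6) : dir (d + 3) = - dir d := by
  fin_cases d <;> rfl

lemma dir_inj {d d' : Fin 6} (h : dir d = dir d') : d = d' := by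
  revert d d'
  decide

lemma sum_g (H : Good p m) {j : ℕ} (hj1 : 1 ≤ j) (hj : j < m) {d k' : Fin 6}
    (hd : p (j + 1) = p j + dir d) (hk' : p (j - 1) = p j + dir k') (k : Fin 6) :
    ∑ i ∈ Finset.range m, g (p j) (p i) (p (i + 1)) k = I (k = d) - I (k = k') := by
  rw [Finset.sum_eq_add (j - 1) j (by omega)]
  · have e : j - 1 + 1 = j := by omega
    rw [e, hk', hd, g_in, g_out]
    ring
  · intro c hc hcc
    obtain ⟨d', hd'⟩ := H.step c (Finset.mem_range.mp hc)
    have hc' := Finset.mem_range.mp hc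
    rw [hd']
    apply g_loc
    · intro h
      exact hcc.2 (H.inj c (by omega) j (by omega) h)
    · rw [← hd']
      intro h
      have := H.inj (c + 1) (by omega) j (by omega) h
      omega
  · intro h
    exact absurd (Finset.mem_range.mpr (by omega)) h
  · intro h
    exact absurd (Finset.mem_range.mpr (by omega)) h

lemma prev_dir (H : Good p m) {j : ℕ} (hj1 : 1 ≤ j) (hj : j < m) :
    ∃ k' : Fin 6, p (j - 1) = p j + dir k' ∧ p j = p (j - 1) + dir (k' + 3) := by
  obtain ⟨e, he⟩ := H.step (j - 1) (by omega)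
  rw [show j - 1 + 1 = j by omega] at he
  refine ⟨e + 3, ?_, ?_⟩
  · rw [dir_opp, he]; simp
  · have : e + 3 + 3 = e := by fin_cases e <;> rfl
    rw [this]; exact he

lemma w_first (H : Good p m) : w p m (fc (p 0) 0) = 1 := by
  unfold w fc
  simp only [Matrix.cons_val_zero]
  rw [I_pos (by omega), Finset.sum_eq_zero, add_zero]
  intro i hi
  have hi' := Finset.mem_range.mp hi
  have h1 : 2 * (p 0).1 < (p i).1 + (p (i + 1)).1 := by
    rcases Nat.eq_zero_or_pos i with rfl | h
    · rw [zero_add, H.first]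
      simp [dir]
      omega
    · have := H.lo i (by omega) h
      have := H.lo (i + 1) (by omega) (by omega)
      omega
  unfold cr
  rw [I_neg (by omega), I_neg (by omega), sub_zero]

/-- on the left side of the path `w` is `1` -/
theorem w_left (H : Good p m) : ∀ i < m, ∀ d : Fin 6, p (i + 1) = p i + dir d →
    w p m (fc (p i) d) = 1 := by
  intro i
  induction i with
  | zero =>
    intro _ d hd
    have : d = 0 := by
      apply dir_inj
      have h1 := H.first
      rw [zero_add] at hd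
      rw [hd] at h1
      exact add_left_cancel h1
    rw [this]
    exact w_first H
  | succ i ih =>
    intro hi d hd
    obtain ⟨k', hk1, hk2⟩ := prev_dir H (j := i + 1) (by omega) hi
    rw [show i + 1 - 1 = i by omega] at hk1 hk2
    have h1 := ih (by omega) (k' + 3) hk2
    have h2 : w p m (fc (p (i + 1)) (k' - 1)) = 1 := by
      rw [← fc_shift, ← hk1]; exact h1
    have hJ : ∀ k : Fin 6, w p m (fc (p (i + 1)) k) - w p m (fc (p (i + 1)) (k - 1)) =
        I (k = d) - I (k = k') := by
      intro k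
      rw [jump H (H.lo _ hi.le (by omega)) (H.hi _ hi.le)]
      · exact sum_g H (by omega) hi hd (by rw [show i + 1 - 1 = i by omega]; exact hk1) k
      · intro h
        have := H.inj (i + 1) hi.le m le_rfl h
        omega
    have hne : d ≠ k' := by
      intro h
      rw [h, ← hk1] at hd
      have := H.inj (i + 1 + 1) hi i (by omega) hd
      omega
    have J0 := hJ 0
    have J1 := hJ 1
    have J2 := hJ 2
    have J3 := hJ 3
    have J4 := hJ 4
    have J5 := hJ 5
    clear hJ
    generalize hW : (fun k => w p m (fc (p (i + 1)) k)) = W at *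
    have hW' : ∀ k, w p m (fc (p (i + 1)) k) = W k := fun k => by rw [← hW]
    simp only [hW'] at *
    have e0 : (0 - 1 : Fin 6) = 5 := rfl
    have e1 : (1 - 1 : Fin 6) = 0 := rfl
    have e2 : (2 - 1 : Fin 6) = 1 := rfl
    have e3 : (3 - 1 : Fin 6) = 2 := rfl
    have e4 : (4 - 1 : Fin 6) = 3 := rfl
    have e5 : (5 - 1 : Fin 6) = 4 := rfl
    rw [e0] at J0
    rw [e1] at J1
    rw [e2] at J2
    rw [e3] at J3
    rw [e4] at J4
    rw [e5] at J5
    clear hd hk1 hk2 h1 hW hW' ih
    fin_cases d <;> fin_cases k' <;>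
    · simp [I] at J0 J1 J2 J3 J4 J5 h2 hne ⊢
      try simp only [e0, e1, e2, e3, e4, e5] at h2
      try rw [show (-1 : Fin 6) = 5 from rfl] at h2
      try omega

/-- on the right side of the path `w` is `0` -/
theorem w_right (H : Good p m) {i : ℕ} (hi1 : 1 ≤ i) (hi : i < m) {d : Fin 6}
    (hd : p (i + 1) = p i + dir d) : w p m (fc (p i) (d - 1)) = 0 := by
  obtain ⟨k', hk1, hk2⟩ := prev_dir H hi1 hi
  have hne : d ≠ k' := by
    intro h
    rw [h, ← hk1] at hd
    have := H.inj (i + 1) hi (i - 1) (by omega) hd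
    omega
  have h1 := w_left H i hi d hd
  have h2 := jump H (H.lo _ hi.le hi1) (H.hi _ hi.le) (fun h => by
    have := H.inj i hi.le m le_rfl h
    omega) d
  rw [sum_g H hi1 hi hd hk1, I_pos rfl, I_neg hne, h1] at h2
  omega

lemma cre_ne (x : ℤ × ℤ) (d : Fin 6) (f1 f2 : ℤ) (h : cre x (x + dir d) f1 f2 ≠ 0) :
    ((f1, f2) = fc x (d - 1) ∨ (f1, f2) = fc x d) ∧ d ≠ 0 := by
  obtain ⟨a, b⟩ := x
  unfold cre I at h
  fin_cases d
  · exfalso
    apply h
    simp [dir]
    split_ifs <;> omega
  · refine ⟨Or.inl ?_, by decide⟩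
    simp [dir, fc] at h ⊢
    split_ifs at h <;> omega
  · refine ⟨Or.inl ?_, by decide⟩
    rw [show fc (a, b) (((fun i => i) ⟨2, by norm_num⟩ : Fin 6) - 1) = (b + 1, 2 * a - 1) from rfl]
    simp [dir] at h ⊢
    split_ifs at h <;> omega
  · exfalso
    apply h
    simp [dir]
    split_ifs <;> omega
  · refine ⟨Or.inr ?_, by decide⟩
    simp [dir, fc] at h ⊢
    split_ifs at h <;> omega
  · refine ⟨Or.inr ?_, by decide⟩
    simp [dir, fc] at h ⊢
    split_ifs at h <;> omega

/-- **Jordan curve theorem** for the good paths: `w` is `0` or `1` everywhere. -/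
theorem w_zero_one (H : Good p m) (f1 f2 : ℤ) : w p m (f1, f2) = 0 ∨ w p m (f1, f2) = 1 := by
  have base : ∀ f2 : ℤ, f2 ≤ 2 * (p 0).1 → w p m (f1, f2) = 0 ∨ w p m (f1, f2) = 1 := by
    intro f2 hf
    have h0 : ∑ i ∈ Finset.range m, cr (p i) (p (i + 1)) f1 f2 = 0 := by
      apply Finset.sum_eq_zero
      intro i hi
      have hi' := Finset.mem_range.mp hi
      have h1 : 2 * (p 0).1 < (p i).1 + (p (i + 1)).1 := by
        rcases Nat.eq_zero_or_pos i with rfl | h
        · rw [zero_add, H.first]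
          simp [dir]
          omega
        · have := H.lo i (by omega) h
          have := H.lo (i + 1) (by omega) (by omega)
          omega
      unfold cr
      rw [I_neg (by omega), I_neg (by omega), sub_zero]
    unfold w I
    simp only
    rw [h0]
    split_ifs <;> simp
  have main : ∀ n : ℕ, w p m (f1, 2 * (p 0).1 + n) = 0 ∨ w p m (f1, 2 * (p 0).1 + n) = 1 := by
    intro n
    induction n with
    | zero => exact base _ (by simp)
    | succ n ih =>
      have hv := w_vert (p := p) (m := m) f1 (2 * (p 0).1 + (n + 1 : ℕ))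
      rw [show (2 * (p 0).1 + ((n + 1 : ℕ) : ℤ) - 1 : ℤ) = 2 * (p 0).1 + n by push_cast; ring] at hv
      by_cases hex : ∃ i < m, cre (p i) (p (i + 1)) f1 (2 * (p 0).1 + (n + 1 : ℕ)) ≠ 0
      · obtain ⟨i, hi, hne⟩ := hex
        obtain ⟨d, hd⟩ := H.step i hi
        rw [hd] at hne
        obtain ⟨h1, h2⟩ := cre_ne _ _ _ _ hne
        have hi1 : 1 ≤ i := by
          by_contra hcon
          have : i = 0 := by omega
          subst this
          have h3 := H.first
          rw [zero_add] at hd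
          rw [hd] at h3
          exact h2 (dir_inj (add_left_cancel h3))
        rcases h1 with h1 | h1
        · rw [h1]
          exact Or.inl (w_right H hi1 hi hd)
        · rw [h1]
          exact Or.inr (w_left H i hi d hd)
      · push Not at hex
        rw [Finset.sum_eq_zero (fun i hi => hex i (Finset.mem_range.mp hi))] at hv
        have : w p m (f1, 2 * (p 0).1 + ((n + 1 : ℕ) : ℤ)) = w p m (f1, 2 * (p 0).1 + (n : ℤ)) := by
          omega
        rw [this]
        exact ih
  rcases le_total f2 (2 * (p 0).1) with h | h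
  · exact base f2 h
  · have := main (f2 - 2 * (p 0).1).toNat
    rwa [Int.toNat_of_nonneg (by omega), add_sub_cancel] at this

/-- the net crossing number of a good path is `-1`, `0` or `1` -/
theorem good_cross (H : Good p m) (β k : ℤ) :
    |∑ i ∈ Finset.range m, cr (p i) (p (i + 1)) β k| ≤ 1 := by
  have h := w_zero_one H β k
  unfold w I at h
  simp only at h
  rw [abs_le]
  split_ifs at h <;> omega

end Run7.h287.WN
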