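import Pool.Agent.Run7.h287.WN.Geom

/-!
Winding angles and turnings of uniform self-avoiding walks on the three planar lattices.
-/

set_option linter.unusedSimpArgs false
set_option linter.flexible false
set_option linter.unusedVariables false

namespace Run7.h287.WN

open Real Run7.h529.FB

variable {G : Lattice} {n : ℕ}

/-- the vertex of the walk at time `i` (for `i ≤ n`) -/
def vertex (ω : Walk G n) (i : ℕ) : ℤ × ℤ := ω.1 ⟨min i n, by omega⟩

/-- the winding angle around the vertex `z` of the piece of the walk between the times `s` and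
`t` -/
noncomputable def winding (ω : Walk G n) (z : ℤ × ℤ) (s t : ℕ) : ℝ :=
  ∑ i ∈ Finset.Ico s t, Complex.arg ((pos G (vertex ω (i + 1)) - pos G z) /
    (pos G (vertex ω i) - pos G z))

/-- the total turning of the piece of the walk between the times `s` and `t` -/
noncomputable def turning (ω : Walk G n) (s t : ℕ) : ℝ :=
  ∑ i ∈ Finset.Ico (s + 1) t, Complex.arg ((pos G (vertex ω (i + 1)) - pos G (vertex ω i)) /
    (pos G (vertex ω i) - pos G (vertex ω (i - 1))))

lemma vertex_of_le (ω : Walk G n) {i : ℕ} (h : i ≤ n) : vertex ω i = ω.1 ⟨i, by omega⟩ := by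
  unfold vertex
  have e : (⟨min i n, by omega⟩ : Fin (n + 1)) = ⟨i, by omega⟩ := Fin.ext (min_eq_left h)
  rw [e]

lemma vertex_inj (ω : Walk G n) {i j : ℕ} (hi : i ≤ n) (hj : j ≤ n)
    (h : vertex ω i = vertex ω j) : i = j := by
  rw [vertex_of_le ω hi, vertex_of_le ω hj] at h
  have := ω.2.2.1 h
  exact congrArg Fin.val this

lemma vertex_adj (ω : Walk G n) {i : ℕ} (hi : i < n) :
    Adj G (vertex ω i) (vertex ω (i + 1)) := by
  rw [vertex_of_le ω hi.le, vertex_of_le ω hi]
  exact ω.2.2.2 ⟨i, hi⟩

lemma saw (ω : Walk G n) : Saw (vertex ω) 0 n :=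
  ⟨fun i _ hi j _ hj h => vertex_inj ω hi hj h, fun i _ hi => adj_dir (vertex_adj ω hi)⟩

/-- the number of bridges -/
noncomputable def VV (ω : Walk G n) : ℕ := V (fun i => (ω.1 i).1)

lemma coord_mem (G : Lattice) : (fun p : ℤ × ℤ => p.1) ∈ Coords G := by
  cases G with
  | square => exact Or.inl rfl
  | triangular => exact Or.inl rfl
  | honeycomb => rfl

lemma cut (ω : Walk G n) {s t : ℕ} (hst : s ≤ t) (ht : t ≤ n) : Cut (vertex ω) (VV ω) s t := by
  have h := V_spec' ω (coord_mem G) (s := ⟨s, by omega⟩) (t := ⟨t, by omega⟩) hst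
  obtain ⟨τ, h1, h2, h3⟩ := h
  refine ⟨fun i => (τ i : ℕ), by simp only [h1], ?_, ?_⟩
  · show ((τ (V fun i => (ω.1 i).1) : Fin (n + 1)) : ℕ) = t
    have : (τ (V fun i => (ω.1 i).1)) = ⟨t, by omega⟩ := h2
    rw [this]
  · intro i hi
    obtain ⟨h4, h5⟩ := h3 i hi
    have hb : ∀ j, j ≤ (τ (i + 1) : ℕ) → j ≤ n := fun j hj => by
      have := (τ (i + 1)).2
      omega
    have e1 : (vertex ω (τ i : ℕ)).1 = (ω.1 (τ i)).1 := by
      rw [vertex_of_le ω (by have := (τ i).2; omega)]
    have e2 : (vertex ω (τ (i + 1) : ℕ)).1 = (ω.1 (τ (i + 1))).1 := by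
      rw [vertex_of_le ω (by have := (τ (i + 1)).2; omega)]
    refine ⟨h4, ?_⟩
    rcases h5 with h5 | h5
    · refine Or.inl fun j hj1 hj2 => ?_
      have := h5 ⟨j, by have := hb j hj2; omega⟩ hj1 hj2
      rw [e1, e2, vertex_of_le ω (hb j hj2)]
      exact this
    · refine Or.inr fun j hj1 hj2 => ?_
      have := h5 ⟨j, by have := hb j hj2; omega⟩ hj1 hj2
      rw [e1, e2, vertex_of_le ω (hb j hj2)]
      exact this

lemma unit (ω : Walk G n) : Unit (fun i => pos G (vertex ω i)) 0 n :=
  ⟨fun i _ hi => step_pos (vertex_adj ω hi), fun i j _ hij hj => sep_pos G fun h => by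
    have := vertex_inj ω (by omega) hj h
    omega⟩

theorem winding_le (ω : Walk G n) {s t : ℕ} (hst : s ≤ t) (ht : t ≤ n) (z : ℤ × ℤ)
    (hz : ∀ i, s ≤ i → i ≤ t → vertex ω i ≠ z) :
    |winding ω z s t| ≤ 2 * π * (VV ω + 2) := by
  have hpi := Real.pi_pos
  have hS : Saw (vertex ω) s t := (saw ω).mono (Nat.zero_le _) ht
  have key : ∀ τ : ℂ, 0 < τ.im →
      |wind (fun i => E τ (vertex ω i)) (E τ z) s t| ≤ 2 * π * (VV ω + 1) :=
    fun τ hτ => wind_lin_le hτ hS (cut ω hst ht) z hz
  cases G with
  | square =>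
    have := key Complex.I (by simp)
    have h2 : winding ω z s t = wind (fun i => E Complex.I (vertex ω i)) (E Complex.I z) s t := rfl
    rw [h2]
    nlinarith
  | triangular =>
    have := key ⟨1 / 2, √3 / 2⟩ (by simp)
    have h2 : winding ω z s t = wind (fun i => E ⟨1 / 2, √3 / 2⟩ (vertex ω i))
      (E ⟨1 / 2, √3 / 2⟩ z) s t := rfl
    rw [h2]
    nlinarith
  | honeycomb =>
    have h1 := key Complex.I (by simp)
    have hc := compare (u := fun i => pos .square (vertex ω i) - pos .square z)
      (v := fun i => pos .honeycomb (vertex ω i) - pos .honeycomb z) hst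
      (fun i h1 h2 => ne_of_normSq (sep_pos _ (hz i h1 h2).symm))
      (fun i h1 h2 => ne_of_normSq (sep_pos _ (hz i h1 h2).symm))
      (fun i h1 h2 => honey_brick (hz i h1 h2).symm)
      (fun i h1 h2 => re_pos_div (sep_pos _ (hz i h1 h2.le).symm)
        (sep_pos _ (hz (i + 1) (by omega) (by omega)).symm) (by
          rw [sub_sub_sub_cancel_right]
          exact step_square (honey_square (vertex_adj ω (by omega)))))
      (fun i h1 h2 => re_pos_div (sep_pos _ (hz i h1 h2.le).symm)
        (sep_pos _ (hz (i + 1) (by omega) (by omega)).symm) (by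
          rw [sub_sub_sub_cancel_right]
          exact step_honey (vertex_adj ω (by omega))))
    have h2 : winding ω z s t = ∑ i ∈ Finset.Ico s t, Complex.arg
      ((pos .honeycomb (vertex ω (i + 1)) - pos .honeycomb z) /
        (pos .honeycomb (vertex ω i) - pos .honeycomb z)) := rfl
    have h3 : wind (fun i => E Complex.I (vertex ω i)) (E Complex.I z) s t =
      ∑ i ∈ Finset.Ico s t, Complex.arg
      ((pos .square (vertex ω (i + 1)) - pos .square z) /
        (pos .square (vertex ω i) - pos .square z)) := rfl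
    rw [h3] at h1
    rw [h2, hc]
    have a1 := arg_small (honey_brick (hz t hst le_rfl).symm)
    have a2 := arg_small (honey_brick (hz s le_rfl hst).symm)
    rw [abs_le] at h1 ⊢
    constructor <;> linarith

theorem turning_le (ω : Walk G n) {s t : ℕ} (hst : s ≤ t) (ht : t ≤ n) :
    |turning ω s t| ≤ 4 * π * (VV ω + 2) := by
  have hpi := Real.pi_pos
  rcases eq_or_lt_of_le hst with rfl | hlt
  · unfold turning
    rw [Finset.Ico_eq_empty (by omega), Finset.sum_empty, abs_zero]
    positivity
  · have h := hopf hlt ((unit ω).mono (Nat.zero_le _) ht)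
    have h1 : turning ω s t = turn (fun i => pos G (vertex ω i)) s t := rfl
    have h2 := winding_le ω (show s + 1 ≤ t from hlt) ht (vertex ω s) (fun i h3 h4 h5 => by
      have := vertex_inj ω (by omega) (by omega) h5
      omega)
    have h3 := winding_le ω (show s ≤ t - 1 by omega) (by omega) (vertex ω t)
      (fun i h3 h4 h5 => by
        have := vertex_inj ω (by omega) (by omega) h5
        omega)
    have e2 : winding ω (vertex ω s) (s + 1) t =
      wind (fun i => pos G (vertex ω i)) (pos G (vertex ω s)) (s + 1) t := rfl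
    have e3 : winding ω (vertex ω t) s (t - 1) =
      wind (fun i => pos G (vertex ω i)) (pos G (vertex ω t)) s (t - 1) := rfl
    rw [e2] at h2
    rw [e3] at h3
    rw [h1, h]
    refine (abs_add_le _ _).trans ?_
    linarith

/-- some piece of the walk has a total turning above `y`, or a winding angle above `y` around some
vertex of the lattice which is not on the piece -/
def Winds (ω : Walk G n) (y : ℝ) : Prop :=
  ∃ s t : ℕ, s ≤ t ∧ t ≤ n ∧ (y < |turning ω s t| ∨
    ∃ z : ℤ × ℤ, (∀ i, s ≤ i → i ≤ t → vertex ω i ≠ z) ∧ y < |winding ω z s t|)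

lemma winds_lt {ω : Walk G n} {y : ℝ} (h : Winds ω y) : y < 4 * π * (VV ω + 2) := by
  have hpi := Real.pi_pos
  obtain ⟨s, t, hst, ht, h1 | ⟨z, hz, h1⟩⟩ := h
  · exact h1.trans_le (turning_le ω hst ht)
  · refine h1.trans_le ((winding_le ω hst ht z hz).trans ?_)
    have : (0 : ℝ) ≤ VV ω := Nat.cast_nonneg _
    nlinarith

lemma prob_le_one (A : Walk G n → Prop) : prob G n A ≤ 1 := by
  refine (mean_mono (g := fun _ => 1) fun ω => ?_).trans mean_one.le
  split_ifs <;> norm_num

/-- the probability that the uniform walk has a winding angle or a total turning above `y` -/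
theorem tail : ∃ K : ℝ, 0 < K ∧ ∀ G : Lattice, ∀ n : ℕ, 2 ≤ n → ∀ y : ℝ, 0 < y →
    prob G n (fun ω => Winds ω y) ≤ (K * Real.log n ^ 2 / y) ^ (y / K) := by
  obtain ⟨K0, hK0, H⟩ := mean_V
  have hpi3 := Real.pi_gt_three
  have hpi4 := Real.pi_le_four
  set K1 : ℝ := max K0 2 with hK1
  have hK1a : K0 ≤ K1 := le_max_left _ _
  have hK1b : 2 ≤ K1 := le_max_right _ _
  set B : ℝ := 16 * π * K1 with hB
  have hBpos : 0 < B := by positivity
  set K : ℝ := Real.exp 1 * B with hK
  have he := Real.exp_one_gt_d9
  have hKpos : 0 < K := by positivity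
  refine ⟨K, hKpos, fun G n hn y hy => ?_⟩
  have hlog2 := Real.log_two_gt_d9
  have hlogn : Real.log 2 ≤ Real.log n := Real.log_le_log (by norm_num) (by exact_mod_cast hn)
  have hL : 0.48 < Real.log n ^ 2 := by nlinarith
  set L : ℝ := Real.log n ^ 2 with hLdef
  have hLpos : 0 < L := by linarith
  rcases le_total y (K * L) with hyK | hyK
  · refine (prob_le_one _).trans (Real.one_le_rpow ?_ (by positivity))
    rw [one_le_div hy]
    exact hyK
  · -- the interesting case
    have hBL : 0 < B * L := by positivity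
    have hy1 : 1 ≤ y / (B * L) := by
      rw [one_le_div hBL]
      refine le_trans ?_ hyK
      rw [hK]
      nlinarith
    set θ : ℝ := Real.log (y / (B * L)) / 2 with hθ
    have hθ0 : 0 ≤ θ := by
      have := Real.log_nonneg hy1
      positivity
    have hy16 : 16 * π ≤ y := by
      refine le_trans ?_ hyK
      rw [hK, hB]
      have : 1 ≤ Real.exp 1 * K1 * L := by nlinarith
      nlinarith
    have hlam : Real.exp θ ^ 2 = y / (B * L) := by
      rw [← Real.exp_nat_mul, hθ, Nat.cast_ofNat,
        show (2 : ℝ) * (Real.log (y / (B * L)) / 2) = Real.log (y / (B * L)) by ring]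
      exact Real.exp_log (by positivity)
    have h1 : ∀ ω : Walk G n, @ite _ (Winds ω y) (Classical.propDecidable _) (1 : ℝ) 0 ≤
        Real.exp (-(θ * (y / (8 * π)))) * Real.exp θ ^ V (fun i => (ω.1 i).1) := by
      intro ω
      by_cases h2 : Winds ω y
      · rw [if_pos h2]
        have h3 := winds_lt h2
        have h4 : y / (8 * π) ≤ VV ω := by
          rw [div_le_iff₀ (by positivity)]
          nlinarith
        rw [← Real.exp_nat_mul, ← Real.exp_add]
        apply Real.one_le_exp
        have : θ * (y / (8 * π)) ≤ θ * VV ω := mul_le_mul_of_nonneg_left h4 hθ0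
        unfold VV at this
        linarith
      · rw [if_neg h2]
        positivity
    have h2 : prob G n (fun ω => Winds ω y) ≤
        Real.exp (-(θ * (y / (8 * π)))) * Real.exp (K0 * Real.exp θ ^ 2 * L) := by
      calc prob G n (fun ω => Winds ω y) ≤ mean G n (fun ω =>
            Real.exp (-(θ * (y / (8 * π)))) * Real.exp θ ^ V (fun i => (ω.1 i).1)) := mean_mono h1
        _ = Real.exp (-(θ * (y / (8 * π)))) *
            mean G n (fun ω => Real.exp θ ^ V (fun i => (ω.1 i).1)) := mean_const_mul _ _
        _ ≤ _ := by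
            gcongr
            exact H G n hn _ (coord_mem G) _ (Real.one_le_exp hθ0)
    refine h2.trans ?_
    rw [hlam, ← Real.exp_add, Real.rpow_def_of_pos (by positivity)]
    apply Real.exp_le_exp.mpr
    have e1 : K0 * (y / (B * L)) * L = K0 * y / B := by
      field_simp
    have e2 : K0 * y / B ≤ y / (16 * π) := by
      rw [div_le_div_iff₀ hBpos (by positivity), hB]
      have : K0 * (y * (16 * π)) ≤ K1 * (y * (16 * π)) :=
        mul_le_mul_of_nonneg_right hK1a (by positivity)
      linarith
    have e3 : Real.log (K * L / y) = 1 - Real.log (y / (B * L)) := by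
      rw [Real.log_div (by positivity) hy.ne', Real.log_div hy.ne' hBL.ne', hK, mul_assoc,
        Real.log_mul (Real.exp_pos 1).ne' hBL.ne', Real.log_exp]
      ring
    have e4 : Real.log (K * L / y) ≤ 0 :=
      Real.log_nonpos (by positivity) (by rw [div_le_one hy]; exact hyK)
    have e5 : y / K ≤ y / (16 * π) := by
      apply div_le_div_of_nonneg_left hy.le (by positivity)
      rw [hK, hB]
      have : 1 ≤ Real.exp 1 * K1 := by nlinarith
      nlinarith
    have e6 : -(θ * (y / (8 * π))) + y / (16 * π) = Real.log (K * L / y) * (y / (16 * π)) := by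
      rw [e3, hθ]
      field_simp
      ring
    calc -(θ * (y / (8 * π))) + K0 * (y / (B * L)) * L
        ≤ -(θ * (y / (8 * π))) + y / (16 * π) := by rw [e1]; linarith
      _ = Real.log (K * L / y) * (y / (16 * π)) := e6
      _ ≤ Real.log (K * L / y) * (y / K) := mul_le_mul_of_nonpos_left e5 e4

end Run7.h287.WN
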